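import Pool.Agent.Lib_helper20.SRO.Defs

/-!
Module E of the semantic read-once lower bound: from a program to a five-phase system.
-/

namespace Pool.Agent.Lib_helper45.SRO

open Finset Pool.Agent.Lib_helper20.SRO

variable {V N : Type}

theorem walk_append {G : NBP V N} {u v w : N} {l l' : List (V × Bool)} (h : Walk G u v l)
    (h' : Walk G v w l') : Walk G u w (l ++ l') := by
  induction h with
  | nil u => exact h'
  | free he _ ih => exact Walk.free he (ih h')
  | test x c he _ ih => exact Walk.test x c he (ih h')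

theorem walk_split {G : NBP V N} {u w : N} {l : List (V × Bool)} (h : Walk G u w l) :
    ∀ l1 l2 : List (V × Bool), l = l1 ++ l2 → ∃ v, Walk G u v l1 ∧ Walk G v w l2 := by
  induction h with
  | nil u =>
    intro l1 l2 hl
    have h1 := List.append_eq_nil_iff.1 hl.symm
    rw [h1.1, h1.2]
    exact ⟨u, Walk.nil u, Walk.nil u⟩
  | free he _ ih =>
    intro l1 l2 hl
    obtain ⟨v, hv1, hv2⟩ := ih l1 l2 hl
    exact ⟨v, Walk.free he hv1, hv2⟩
  | test x c he hw ih =>
    intro l1 l2 hl
    cases l1 with
    | nil =>
      simp only [List.nil_append] at hl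
      subst hl
      exact ⟨_, Walk.nil _, Walk.test x c he hw⟩
    | cons p l1' =>
      simp only [List.cons_append, List.cons.injEq] at hl
      obtain ⟨v, hv1, hv2⟩ := ih l1' l2 hl.2
      rw [← hl.1]
      exact ⟨v, Walk.test x c he hv1, hv2⟩

/-- the concatenation of five lists -/
def tot (s : Fin 5 → List (V × Bool)) : List (V × Bool) :=
  s 0 ++ (s 1 ++ (s 2 ++ (s 3 ++ s 4)))

theorem mem_tot {s : Fin 5 → List (V × Bool)} {p : V × Bool} : p ∈ tot s ↔ ∃ j, p ∈ s j := by
  simp only [tot, List.mem_append]
  constructor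
  · rintro (h | h | h | h | h)
    · exact ⟨0, h⟩
    · exact ⟨1, h⟩
    · exact ⟨2, h⟩
    · exact ⟨3, h⟩
    · exact ⟨4, h⟩
  · rintro ⟨j, h⟩
    fin_cases j
    · exact Or.inl h
    · exact Or.inr (Or.inl h)
    · exact Or.inr (Or.inr (Or.inl h))
    · exact Or.inr (Or.inr (Or.inr (Or.inl h)))
    · exact Or.inr (Or.inr (Or.inr (Or.inr h)))

/-- a walk in five pieces through the nodes `t`, of lengths `w`, all tests of which `b` passes -/
structure Good (G : NBP V N) (t : Fin 4 → N) (w : Fin 5 → ℕ) (b : V → Bool)
    (s : Fin 5 → List (V × Bool)) : Prop where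
  w0 : Walk G G.source (t 0) (s 0)
  w1 : Walk G (t 0) (t 1) (s 1)
  w2 : Walk G (t 1) (t 2) (s 2)
  w3 : Walk G (t 2) (t 3) (s 3)
  w4 : Walk G (t 3) G.sink (s 4)
  len : ∀ j, (s j).length = w j
  agr : ∀ j, Agrees b (s j)

theorem Good.mix {G : NBP V N} {t : Fin 4 → N} {w : Fin 5 → ℕ} {b b' h : V → Bool}
    {s s' : Fin 5 → List (V × Bool)} (hs : Good G t w b s) (hs' : Good G t w b' s')
    (A : Fin 5 → Prop) [DecidablePred A] (h1 : ∀ j, A j → Agrees h (s j))
    (h2 : ∀ j, ¬ A j → Agrees h (s' j)) : Good G t w h (fun j => if A j then s j else s' j) := by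
  constructor
  · by_cases h : A 0
    · simpa [h] using hs.w0
    · simpa [h] using hs'.w0
  · by_cases h : A 1
    · simpa [h] using hs.w1
    · simpa [h] using hs'.w1
  · by_cases h : A 2
    · simpa [h] using hs.w2
    · simpa [h] using hs'.w2
  · by_cases h : A 3
    · simpa [h] using hs.w3
    · simpa [h] using hs'.w3
  · by_cases h : A 4
    · simpa [h] using hs.w4
    · simpa [h] using hs'.w4
  · intro j
    by_cases h : A j
    · simpa [h] using hs.len j
    · simpa [h] using hs'.len j
  · intro j
    by_cases h : A j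
    · simpa [h] using h1 j h
    · simpa [h] using h2 j h

theorem Good.walk {G : NBP V N} {t : Fin 4 → N} {w : Fin 5 → ℕ} {b : V → Bool}
    {s : Fin 5 → List (V × Bool)} (hs : Good G t w b s) : Walk G G.source G.sink (tot s) :=
  walk_append hs.w0 (walk_append hs.w1 (walk_append hs.w2 (walk_append hs.w3 hs.w4)))

theorem Good.agrees {G : NBP V N} {t : Fin 4 → N} {w : Fin 5 → ℕ} {b : V → Bool}
    {s : Fin 5 → List (V × Bool)} (hs : Good G t w b s) : Agrees b (tot s) := by
  intro p hp
  obtain ⟨j, hj⟩ := mem_tot.1 hp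
  exact hs.agr j p hj

/-- the variables of the list -/
abbrev vars (l : List (V × Bool)) : List V := l.map Prod.fst

theorem agrees_flip [DecidableEq V] {b : V → Bool} {x : V} {l : List (V × Bool)}
    (h : Agrees b l) (hx : x ∉ vars l) : Agrees (flipAt b x) l := by
  intro p hp
  have hne : p.1 ≠ x := by
    rintro rfl
    exact hx (List.mem_map_of_mem hp)
  rw [flipAt, Function.update_of_ne hne]
  exact h p hp

section main

variable [DecidableEq V] {G : NBP V N} {f : (V → Bool) → Bool}

theorem complete (hcomp : G.Computes f) (hrig : Rigid f) {b : V → Bool} {l : List (V × Bool)}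
    (hw : Walk G G.source G.sink l) (hb : Agrees b l) (x : V) : x ∈ vars l := by
  by_contra hx
  have h1 : f b = true := (hcomp b).1 ⟨l, hw, hb⟩
  have h2 : f (flipAt b x) = true := (hcomp _).1 ⟨l, hw, agrees_flip hb hx⟩
  rw [hrig b x h1] at h2
  exact Bool.false_ne_true h2

omit [DecidableEq V] in
theorem nodup_tot {s : Fin 5 → List (V × Bool)} (h : (vars (tot s)).Nodup) :
    (∀ j, (vars (s j)).Nodup) ∧
      ∀ i j, ∀ x, x ∈ vars (s i) → x ∈ vars (s j) → i = j := by
  simp only [tot, vars, List.map_append, List.nodup_append] at h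
  obtain ⟨h0, ⟨h1, ⟨h2, ⟨h3, h4, h34⟩, h234⟩, h1234⟩, h01234⟩ := h
  constructor
  · intro j
    fin_cases j
    · exact h0
    · exact h1
    · exact h2
    · exact h3
    · exact h4
  · have key : ∀ i j : Fin 5, i < j → ∀ x, x ∈ vars (s i) → x ∈ vars (s j) → False := by
      intro i j hij x hi hj
      fin_cases i
      · refine h01234 x hi x ?_ rfl
        simp only [List.mem_append]
        fin_cases j
        · exact absurd hij (by decide)
        · exact Or.inl hj
        · exact Or.inr (Or.inl hj)
        · exact Or.inr (Or.inr (Or.inl hj))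
        · exact Or.inr (Or.inr (Or.inr hj))
      · refine h1234 x hi x ?_ rfl
        simp only [List.mem_append]
        fin_cases j
        · exact absurd hij (by decide)
        · exact absurd hij (by decide)
        · exact Or.inl hj
        · exact Or.inr (Or.inl hj)
        · exact Or.inr (Or.inr hj)
      · refine h234 x hi x ?_ rfl
        simp only [List.mem_append]
        fin_cases j
        · exact absurd hij (by decide)
        · exact absurd hij (by decide)
        · exact absurd hij (by decide)
        · exact Or.inl hj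
        · exact Or.inr hj
      · refine h34 x hi x ?_ rfl
        fin_cases j
        · exact absurd hij (by decide)
        · exact absurd hij (by decide)
        · exact absurd hij (by decide)
        · exact absurd hij (by decide)
        · exact hj
      · fin_cases j
        · exact absurd hij (by decide)
        · exact absurd hij (by decide)
        · exact absurd hij (by decide)
        · exact absurd hij (by decide)
        · exact absurd hij (by decide)
    intro i j x hi hj
    rcases lt_trichotomy i j with h | h | h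
    · exact (key i j h x hi hj).elim
    · exact h
    · exact (key j i h x hj hi).elim

theorem Good.spec (hsro : G.SemanticReadOnce) (hcomp : G.Computes f) (hrig : Rigid f)
    {t : Fin 4 → N} {w : Fin 5 → ℕ} {b : V → Bool} {s : Fin 5 → List (V × Bool)}
    (hs : Good G t w b s) : (∀ j, (vars (s j)).Nodup) ∧
      (∀ i j, ∀ x, x ∈ vars (s i) → x ∈ vars (s j) → i = j) ∧ ∀ x, ∃ j, x ∈ vars (s j) := by
  have h1 := nodup_tot (hsro _ hs.walk ⟨b, hs.agrees⟩)
  refine ⟨h1.1, h1.2, fun x => ?_⟩
  have h2 := complete hcomp hrig hs.walk hs.agrees x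
  obtain ⟨p, hp, hpx⟩ := List.mem_map.1 h2
  obtain ⟨j, hj⟩ := mem_tot.1 hp
  exact ⟨j, List.mem_map.2 ⟨p, hj, hpx⟩⟩

theorem Good.unique (hsro : G.SemanticReadOnce) (hcomp : G.Computes f) (hrig : Rigid f)
    {t : Fin 4 → N} {w : Fin 5 → ℕ} {b : V → Bool} {s s' : Fin 5 → List (V × Bool)}
    (hs : Good G t w b s) (hs' : Good G t w b s') {i j : Fin 5} {x : V}
    (hi : x ∈ vars (s i)) (hj : x ∈ vars (s' j)) : i = j := by
  by_contra hne
  have hg := Good.mix hs hs' (fun k => k = i) (h := b) (fun k _ => hs.agr k)
    (fun k _ => hs'.agr k)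
  refine hne ((Good.spec hsro hcomp hrig hg).2.1 i j x ?_ ?_)
  · simpa using hi
  · simpa [Ne.symm hne] using hj

open Classical in
/-- the phase in which `b` reads `x` -/
noncomputable def lab (G : NBP V N) (t : Fin 4 → N) (w : Fin 5 → ℕ) (b : V → Bool) (x : V) :
    Fin 5 :=
  if h : ∃ j, ∃ s, Good G t w b s ∧ x ∈ vars (s j) then h.choose else 0

theorem lab_eq (hsro : G.SemanticReadOnce) (hcomp : G.Computes f) (hrig : Rigid f)
    {t : Fin 4 → N} {w : Fin 5 → ℕ} {b : V → Bool} {s : Fin 5 → List (V × Bool)}
    (hs : Good G t w b s) (x : V) (j : Fin 5) : lab G t w b x = j ↔ x ∈ vars (s j) := by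
  have key : ∀ j, x ∈ vars (s j) → lab G t w b x = j := by
    intro j hj
    have hex : ∃ j, ∃ s, Good G t w b s ∧ x ∈ vars (s j) := ⟨j, s, hs, hj⟩
    rw [lab, dif_pos hex]
    obtain ⟨s', hs', hx'⟩ := hex.choose_spec
    exact Good.unique hsro hcomp hrig hs' hs hx' hj
  constructor
  · intro h
    obtain ⟨k, hk⟩ := (Good.spec hsro hcomp hrig hs).2.2 x
    rw [← h, key k hk]
    exact hk
  · exact key j

end main

theorem split_five {G : NBP V N} {w : Fin 5 → ℕ} {b : V → Bool} {l : List (V × Bool)}
    (hw : Walk G G.source G.sink l) (hb : Agrees b l) (hlen : l.length = ∑ j, w j) :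
    ∃ t s, Good G t w b s := by
  rw [Fin.sum_univ_five] at hlen
  have h0 : l = l.take (w 0) ++ l.drop (w 0) := (List.take_append_drop _ _).symm
  obtain ⟨v0, hv0, hw0⟩ := walk_split hw _ _ h0
  set l1 := l.drop (w 0) with hl1
  have hl1len : l1.length = w 1 + w 2 + w 3 + w 4 := by
    rw [hl1, List.length_drop]; omega
  have h1 : l1 = l1.take (w 1) ++ l1.drop (w 1) := (List.take_append_drop _ _).symm
  obtain ⟨v1, hv1, hw1⟩ := walk_split hw0 _ _ h1
  set l2 := l1.drop (w 1) with hl2
  have hl2len : l2.length = w 2 + w 3 + w 4 := by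
    rw [hl2, List.length_drop]; omega
  have h2 : l2 = l2.take (w 2) ++ l2.drop (w 2) := (List.take_append_drop _ _).symm
  obtain ⟨v2, hv2, hw2⟩ := walk_split hw1 _ _ h2
  set l3 := l2.drop (w 2) with hl3
  have hl3len : l3.length = w 3 + w 4 := by
    rw [hl3, List.length_drop]; omega
  have h3 : l3 = l3.take (w 3) ++ l3.drop (w 3) := (List.take_append_drop _ _).symm
  obtain ⟨v3, hv3, hw3⟩ := walk_split hw2 _ _ h3
  have hb1 : Agrees b l1 := fun p hp => hb p (List.mem_of_mem_drop hp)
  have hb2 : Agrees b l2 := fun p hp => hb1 p (List.mem_of_mem_drop hp)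
  have hb3 : Agrees b l3 := fun p hp => hb2 p (List.mem_of_mem_drop hp)
  refine ⟨![v0, v1, v2, v3],
    ![l.take (w 0), l1.take (w 1), l2.take (w 2), l3.take (w 3), l3.drop (w 3)], ?_⟩
  refine ⟨hv0, hv1, hv2, hv3, hw3, ?_, ?_⟩
  · intro j
    fin_cases j
    · change (l.take (w 0)).length = w 0
      rw [List.length_take]; omega
    · change (l1.take (w 1)).length = w 1
      rw [List.length_take]; omega
    · change (l2.take (w 2)).length = w 2
      rw [List.length_take]; omega
    · change (l3.take (w 3)).length = w 3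
      rw [List.length_take]; omega
    · change (l3.drop (w 3)).length = w 4
      rw [List.length_drop]; omega
  · intro j
    fin_cases j
    · exact fun p hp => hb p (List.mem_of_mem_take hp)
    · exact fun p hp => hb1 p (List.mem_of_mem_take hp)
    · exact fun p hp => hb2 p (List.mem_of_mem_take hp)
    · exact fun p hp => hb3 p (List.mem_of_mem_take hp)
    · exact fun p hp => hb3 p (List.mem_of_mem_drop hp)

theorem stmtE : StmtE := by
  classical
  intro n N _ G f w hsro hcomp hrig hw
  -- the inputs that pass through the nodes `t`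
  set P : (Fin 4 → N) → Finset (Fin n → Bool) :=
    fun t => univ.filter (fun b => ∃ s, Good G t w b s) with hP
  have hcover : univ.filter (fun b : Fin n → Bool => f b = true) ⊆ univ.biUnion P := by
    intro b hb
    rw [mem_filter] at hb
    obtain ⟨l, hl, hbl⟩ := (hcomp b).2 hb.2
    have hnd := hsro l hl ⟨b, hbl⟩
    have hall : ∀ x, x ∈ vars l := complete hcomp hrig hl hbl
    have hlen : l.length = n := by
      have h1 : (vars l).toFinset = univ := by
        ext x; simp only [List.mem_toFinset, mem_univ, iff_true]; exact hall x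
      have h2 := List.toFinset_card_of_nodup hnd
      rw [h1, card_univ, Fintype.card_fin, List.length_map] at h2
      exact h2.symm
    obtain ⟨t, s, hg⟩ := split_five (w := w) hl hbl (by rw [hlen, hw])
    rw [mem_biUnion]
    exact ⟨t, mem_univ _, by rw [hP]; exact mem_filter.2 ⟨mem_univ _, s, hg⟩⟩
  have : Nonempty N := ⟨G.source⟩
  obtain ⟨t, ht⟩ := Finite.exists_max (fun t => (P t).card)
  refine ⟨P t, lab G t w, ⟨?_, ?_⟩, ?_, ?_⟩
  · intro b hb j
    obtain ⟨s, hs⟩ := (mem_filter.1 hb).2
    have h1 : univ.filter (fun x => lab G t w b x = j) = (vars (s j)).toFinset := by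
      ext x
      rw [mem_filter, List.mem_toFinset, lab_eq hsro hcomp hrig hs]
      simp
    rw [h1, List.toFinset_card_of_nodup ((Good.spec hsro hcomp hrig hs).1 j), List.length_map,
      hs.len]
  · intro b hb b' hb' A hA
    obtain ⟨s, hs⟩ := (mem_filter.1 hb).2
    obtain ⟨s', hs'⟩ := (mem_filter.1 hb').2
    have L1 := lab_eq hsro hcomp hrig hs
    have L2 := lab_eq hsro hcomp hrig hs'
    set h : Fin n → Bool := fun x => if lab G t w b x ∈ A then b x else b' x with hh
    have hg : Good G t w h (fun j => if j ∈ A then s j else s' j) := by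
      refine Good.mix hs hs' (fun j => j ∈ A) ?_ ?_
      · intro j hj p hp
        have h1 : lab G t w b p.1 = j := (L1 p.1 j).2 (List.mem_map_of_mem hp)
        rw [hh]
        simp only
        rw [h1, if_pos hj]
        exact hs.agr j p hp
      · intro j hj p hp
        have h1 : lab G t w b' p.1 = j := (L2 p.1 j).2 (List.mem_map_of_mem hp)
        have h2 : b' p.1 = p.2 := hs'.agr j p hp
        rw [hh]
        simp only
        by_cases h3 : lab G t w b p.1 ∈ A
        · rw [if_pos h3, hA p.1 h3 (by rw [h1]; exact hj)]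
          exact h2
        · rw [if_neg h3]
          exact h2
    have L3 := lab_eq hsro hcomp hrig hg
    have sp := Good.spec hsro hcomp hrig hg
    have iff1 : ∀ x, lab G t w b x ∈ A ↔ lab G t w b' x ∈ A := by
      intro x
      constructor
      · intro h1
        by_contra h2
        have h3 : x ∈ vars (s (lab G t w b x)) := (L1 x _).1 rfl
        have h4 : x ∈ vars (s' (lab G t w b' x)) := (L2 x _).1 rfl
        have h5 := sp.2.1 (lab G t w b x) (lab G t w b' x) x (by simpa [h1] using h3)
          (by simpa [h2] using h4)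
        rw [← h5] at h2
        exact h2 h1
      · intro h1
        by_contra h2
        obtain ⟨k, hk⟩ := sp.2.2 x
        by_cases hkA : k ∈ A
        · have h3 : x ∈ vars (s k) := by simpa [hkA] using hk
          rw [(L1 x k).2 h3] at h2
          exact h2 hkA
        · have h3 : x ∈ vars (s' k) := by simpa [hkA] using hk
          rw [(L2 x k).2 h3] at h1
          exact hkA h1
    refine ⟨iff1, ?_, ?_⟩
    · rw [hP]
      exact mem_filter.2 ⟨mem_univ _, _, hg⟩
    · intro x
      by_cases h1 : lab G t w b x ∈ A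
      · rw [if_pos h1, L3]
        have h3 : x ∈ vars (s (lab G t w b x)) := (L1 x _).1 rfl
        simpa [h1] using h3
      · rw [if_neg h1, L3]
        have h2 : lab G t w b' x ∉ A := fun h => h1 ((iff1 x).2 h)
        have h3 : x ∈ vars (s' (lab G t w b' x)) := (L2 x _).1 rfl
        simpa [h2] using h3
  · intro b hb
    obtain ⟨s, hs⟩ := (mem_filter.1 hb).2
    exact (hcomp b).1 ⟨_, hs.walk, hs.agrees⟩
  · calc (univ.filter (fun b : Fin n → Bool => f b = true)).card
        ≤ (univ.biUnion P).card := card_le_card hcover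
      _ ≤ ∑ t' : Fin 4 → N, (P t').card := card_biUnion_le
      _ ≤ ∑ _t' : Fin 4 → N, (P t).card := sum_le_sum (fun t' _ => ht t')
      _ = (Fintype.card N) ^ 4 * (P t).card := by
          rw [sum_const, smul_eq_mul, card_univ, Fintype.card_fun, Fintype.card_fin]

end Pool.Agent.Lib_helper45.SRO
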