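import Pool.Agent.Lib_helper20.SRO.Defs

/-!
Module C of the semantic read-once lower bound: the chain rule for the label sets.
-/

namespace Pool.Agent.Lib_helper45.SRO

open Finset Pool.Agent.Lib_helper20.SRO

variable {n : ℕ} {P : Finset (Fin n → Bool)} {L : (Fin n → Bool) → Fin n → Fin 5} {i j : Fin 5}

theorem past_refl (x : ℕ) (b : Fin n → Bool) : Past L i x b b := fun _ _ => Iff.rfl

theorem past_symm {x : ℕ} {b b' : Fin n → Bool} (h : Past L i x b b') : Past L i x b' b :=
  fun y hy => (h y hy).symm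

theorem past_trans {x : ℕ} {b b' b'' : Fin n → Bool} (h : Past L i x b b')
    (h' : Past L i x b' b'') : Past L i x b b'' :=
  fun y hy => (h' y hy).trans (h y hy)

theorem past_congr {x : ℕ} {b b' : Fin n → Bool} (h : Past L i x b b') (c : Fin n → Bool) :
    Past L i x b' c ↔ Past L i x b c :=
  ⟨fun h1 => past_trans h h1, fun h1 => past_trans (past_symm h) h1⟩

theorem past_succ {x : Fin n} {b b' : Fin n → Bool} :
    Past L i ((x : ℕ) + 1) b b' ↔ Past L i x b b' ∧ (L b' x = i ↔ L b x = i) := by
  constructor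
  · intro h
    exact ⟨fun y hy => h y (by omega), h x (by omega)⟩
  · rintro ⟨h1, h2⟩ y hy
    by_cases hyx : y = x
    · rw [hyx]; exact h2
    · refine h1 y ?_
      have : (y : ℕ) ≠ x := fun h => hyx (Fin.ext h)
      omega

theorem past_zero (b b' : Fin n → Bool) : Past L i 0 b b' := fun y hy => absurd hy (by omega)

theorem NP_pos {b : Fin n → Bool} (hb : b ∈ P) (x : ℕ) : 0 < NP P L i x b := by
  classical
  unfold NP
  rw [Nat.cast_pos, card_pos]
  exact ⟨b, mem_filter.2 ⟨hb, past_refl x b⟩⟩

theorem NP2_pos {b : Fin n → Bool} (hb : b ∈ P) (x : ℕ) : 0 < NP2 P L i j x b := by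
  classical
  unfold NP2
  rw [Nat.cast_pos, card_pos]
  exact ⟨b, mem_filter.2 ⟨hb, past_refl x b, past_refl x b⟩⟩

theorem NP_congr {x : ℕ} {b b' : Fin n → Bool} (h : Past L i x b b') :
    NP P L i x b' = NP P L i x b := by
  classical
  unfold NP
  congr 2
  exact filter_congr (fun c _ => past_congr h c)

theorem alpha_congr {x : Fin n} {b b' : Fin n → Bool} (h : Past L i x b b') :
    alpha P L i x b' = alpha P L i x b := by
  classical
  unfold alpha
  rw [NP_congr h]
  congr 3
  exact filter_congr (fun c _ => by rw [past_congr h c])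

theorem alpha_nonneg (x : Fin n) (b : Fin n → Bool) : 0 ≤ alpha P L i x b := by
  classical
  unfold alpha NP
  positivity

theorem alpha_le_one (x : Fin n) (b : Fin n → Bool) : alpha P L i x b ≤ 1 := by
  classical
  unfold alpha NP
  refine div_le_one_of_le₀ ?_ (Nat.cast_nonneg _)
  rw [Nat.cast_le]
  exact card_le_card (fun c hc => by
    rw [mem_filter] at hc ⊢
    exact ⟨hc.1, hc.2.1⟩)

/-- the conditional probability of the truth value `u` of (label `i` at `x`) -/
noncomputable def pr (P : Finset (Fin n → Bool)) (L : (Fin n → Bool) → Fin n → Fin 5)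
    (i : Fin 5) (x : Fin n) (b : Fin n → Bool) (u : Bool) : ℝ :=
  if u = true then alpha P L i x b else 1 - alpha P L i x b

theorem pr_nonneg (x : Fin n) (b : Fin n → Bool) (u : Bool) : 0 ≤ pr P L i x b u := by
  unfold pr
  split_ifs
  · exact alpha_nonneg x b
  · linarith [alpha_le_one (P := P) (L := L) (i := i) x b]

theorem NP_succ {x : Fin n} {b : Fin n → Bool} (hb : b ∈ P) :
    NP P L i ((x : ℕ) + 1) b = pr P L i x b (decide (L b x = i)) * NP P L i x b := by
  classical
  have hpos := NP_pos (L := L) (i := i) hb x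
  have h1 : alpha P L i x b * NP P L i x b =
      ((P.filter (fun b' => Past L i x b b' ∧ L b' x = i)).card : ℝ) := by
    rw [alpha, div_mul_cancel₀ _ hpos.ne']
  unfold pr
  by_cases hx : L b x = i
  · rw [decide_eq_true hx, if_pos rfl, h1, NP]
    congr 2
    refine filter_congr (fun c _ => ?_)
    rw [past_succ, iff_true_right hx]
  · rw [decide_eq_false hx, if_neg (by simp), sub_mul, h1, one_mul, NP, NP, eq_sub_iff_add_eq,
      ← Nat.cast_add]
    congr 1
    rw [← card_filter_add_card_filter_not (s := P.filter (fun b' => Past L i x b b'))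
      (fun c => ¬ (L c x = i)), filter_filter, filter_filter]
    congr 2
    · refine filter_congr (fun c _ => ?_)
      rw [past_succ, iff_false_right hx]
    · refine filter_congr (fun c _ => ?_)
      rw [not_not]

open Classical in
/-- the class of `b` -/
noncomputable def cls (P : Finset (Fin n → Bool)) (L : (Fin n → Bool) → Fin n → Fin 5)
    (i j : Fin 5) (x : ℕ) (b : Fin n → Bool) : Finset (Fin n → Bool) :=
  P.filter (fun b' => Past L i x b b' ∧ Past L j x b b')

theorem mem_cls {x : ℕ} {b b' : Fin n → Bool} :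
    b' ∈ cls P L i j x b ↔ b' ∈ P ∧ Past L i x b b' ∧ Past L j x b b' := by
  classical
  rw [cls, mem_filter]

theorem cls_congr {x : ℕ} {b b' : Fin n → Bool} (h : b' ∈ cls P L i j x b) :
    cls P L i j x b' = cls P L i j x b := by
  ext c
  rw [mem_cls] at h
  rw [mem_cls, mem_cls, past_congr h.2.1, past_congr h.2.2]

theorem sum_nonpos_of_cls {x : ℕ} {g : (Fin n → Bool) → ℝ}
    (h : ∀ b ∈ P, ∑ c ∈ cls P L i j x b, g c ≤ 0) : ∑ b ∈ P, g b ≤ 0 := by
  classical
  rw [← sum_fiberwise_of_maps_to (s := P) (t := P.image (cls P L i j x)) (g := cls P L i j x)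
    (fun b hb => mem_image_of_mem _ hb)]
  refine sum_nonpos ?_
  intro Z hZ
  obtain ⟨b, hb, rfl⟩ := mem_image.1 hZ
  have h1 : P.filter (fun c => cls P L i j x c = cls P L i j x b) = cls P L i j x b := by
    ext c
    rw [mem_filter]
    constructor
    · rintro ⟨hc, h2⟩
      rw [← h2, mem_cls]
      exact ⟨hc, past_refl x c, past_refl x c⟩
    · intro hc
      exact ⟨(mem_cls.1 hc).1, cls_congr hc⟩
  rw [h1]
  exact h b hb

/-- the density ratio -/
noncomputable def ratio (P : Finset (Fin n → Bool)) (L : (Fin n → Bool) → Fin n → Fin 5)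
    (i j : Fin 5) (x : ℕ) (b : Fin n → Bool) : ℝ :=
  NP2 P L i j x b * P.card / (NP P L i x b * NP P L j x b)

theorem ratio_pos {b : Fin n → Bool} (hb : b ∈ P) (x : ℕ) : 0 < ratio P L i j x b := by
  have h1 := NP_pos (L := L) (i := i) hb x
  have h2 := NP_pos (L := L) (i := j) hb x
  have h3 := NP2_pos (L := L) (i := i) (j := j) hb x
  have h4 : (0 : ℝ) < P.card := by
    rw [Nat.cast_pos, card_pos]; exact ⟨b, hb⟩
  unfold ratio
  positivity

/-- the pair of truth values -/
def uv (L : (Fin n → Bool) → Fin n → Fin 5) (i j : Fin 5) (x : Fin n) (b : Fin n → Bool) :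
    Bool × Bool := (decide (L b x = i), decide (L b x = j))

theorem ratio_div {x : Fin n} {b : Fin n → Bool} (hb : b ∈ P) :
    ratio P L i j x b / ratio P L i j ((x : ℕ) + 1) b =
      NP2 P L i j x b * (pr P L i x b (uv L i j x b).1 * pr P L j x b (uv L i j x b).2) /
        NP2 P L i j ((x : ℕ) + 1) b := by
  have h1 := NP_pos (L := L) (i := i) hb x
  have h2 := NP_pos (L := L) (i := j) hb x
  have h3 := NP2_pos (L := L) (i := i) (j := j) hb x
  have h3' := NP2_pos (L := L) (i := i) (j := j) hb ((x : ℕ) + 1)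
  have h1' := NP_pos (L := L) (i := i) hb ((x : ℕ) + 1)
  have h2' := NP_pos (L := L) (i := j) hb ((x : ℕ) + 1)
  have h4 : (0 : ℝ) < P.card := by
    rw [Nat.cast_pos, card_pos]; exact ⟨b, hb⟩
  have e1 := NP_succ (L := L) (i := i) (x := x) hb
  have e2 := NP_succ (L := L) (i := j) (x := x) hb
  have q1 : pr P L i x b (uv L i j x b).1 = NP P L i ((x : ℕ) + 1) b / NP P L i x b := by
    rw [eq_div_iff h1.ne', e1]; rfl
  have q2 : pr P L j x b (uv L i j x b).2 = NP P L j ((x : ℕ) + 1) b / NP P L j x b := by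
    rw [eq_div_iff h2.ne', e2]; rfl
  rw [q1, q2]
  unfold ratio
  field_simp

theorem NP2_succ {x : Fin n} {b c : Fin n → Bool} (hc : c ∈ cls P L i j x b) :
    NP2 P L i j ((x : ℕ) + 1) c =
      (((cls P L i j x b).filter (fun a => uv L i j x a = uv L i j x c)).card : ℝ) := by
  classical
  rw [NP2]
  congr 2
  ext a
  rw [mem_filter, mem_filter, past_succ, past_succ, ← cls_congr hc, mem_cls]
  simp only [uv, Prod.mk.injEq, decide_eq_decide]
  tauto

theorem step {x : Fin n} {b : Fin n → Bool} (hij : i ≠ j) :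
    ∑ c ∈ cls P L i j x b, (ratio P L i j x c / ratio P L i j ((x : ℕ) + 1) c - 1 +
      alpha P L i x c * alpha P L j x c) ≤ 0 := by
  classical
  set Z := cls P L i j x b with hZ
  set F : Bool × Bool → ℝ := fun p => pr P L i x b p.1 * pr P L j x b p.2 with hF
  have hF0 : ∀ p, 0 ≤ F p := fun p => mul_nonneg (pr_nonneg _ _ _) (pr_nonneg _ _ _)
  have hsum : ∑ c ∈ Z, F (uv L i j x c) /
      ((Z.filter (fun a => uv L i j x a = uv L i j x c)).card : ℝ) =
      ∑ p ∈ Z.image (uv L i j x), F p := by
    symm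
    refine sum_image' _ ?_
    intro c hc
    have hcard : (0 : ℝ) < ((Z.filter (fun a => uv L i j x a = uv L i j x c)).card : ℝ) := by
      rw [Nat.cast_pos, card_pos]
      exact ⟨c, mem_filter.2 ⟨hc, rfl⟩⟩
    rw [sum_congr rfl (g := fun _ => F (uv L i j x c) /
      ((Z.filter (fun a => uv L i j x a = uv L i j x c)).card : ℝ))]
    · rw [sum_const, nsmul_eq_mul, mul_div_cancel₀ _ hcard.ne']
    · intro d hd
      rw [(mem_filter.1 hd).2]
  have hle : ∑ p ∈ Z.image (uv L i j x), F p ≤ 1 - alpha P L i x b * alpha P L j x b := by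
    have h1 : Z.image (uv L i j x) ⊆ (univ : Finset (Bool × Bool)).erase (true, true) := by
      intro p hp
      obtain ⟨c, _, rfl⟩ := mem_image.1 hp
      rw [mem_erase]
      refine ⟨?_, mem_univ _⟩
      intro h
      simp only [uv, Prod.mk.injEq, decide_eq_true_eq] at h
      exact hij (h.1.symm.trans h.2)
    refine (sum_le_sum_of_subset_of_nonneg h1 (fun p _ _ => hF0 p)).trans ?_
    rw [← add_sub_cancel_left (F (true, true)) (∑ p ∈ (univ : Finset (Bool × Bool)).erase _, F p),
      add_sum_erase _ _ (mem_univ _), Fintype.sum_prod_type]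
    simp only [Fintype.sum_bool, hF, pr]
    norm_num
    nlinarith
  have hcongr : ∀ c ∈ Z, ratio P L i j x c / ratio P L i j ((x : ℕ) + 1) c - 1 +
      alpha P L i x c * alpha P L j x c = (Z.card : ℝ) * (F (uv L i j x c) /
      ((Z.filter (fun a => uv L i j x a = uv L i j x c)).card : ℝ)) +
      (alpha P L i x b * alpha P L j x b - 1) := by
    intro c hc
    have hc' := mem_cls.1 hc
    rw [ratio_div hc'.1, NP2_succ hc, alpha_congr hc'.2.1, alpha_congr hc'.2.2]
    have h2 : NP2 P L i j x c = (Z.card : ℝ) := by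
      rw [hZ, ← cls_congr hc]; rfl
    have h3 : ∀ u, pr P L i x c u = pr P L i x b u := by
      intro u; unfold pr; rw [alpha_congr hc'.2.1]
    have h4 : ∀ u, pr P L j x c u = pr P L j x b u := by
      intro u; unfold pr; rw [alpha_congr hc'.2.2]
    rw [h2, h3, h4, ← hZ]
    simp only [hF]
    ring
  rw [sum_congr rfl hcongr, sum_add_distrib, ← mul_sum, hsum, sum_const, nsmul_eq_mul, ← mul_add]
  refine mul_nonpos_of_nonneg_of_nonpos (Nat.cast_nonneg _) ?_
  linarith

theorem stmtC : StmtC := by
  classical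
  intro n P L i j hij hne
  have hstep : ∀ x : Fin n, ∑ b ∈ P, alpha P L i x b * alpha P L j x b ≤
      ∑ b ∈ P, (Real.log (ratio P L i j ((x : ℕ) + 1) b) - Real.log (ratio P L i j x b)) := by
    intro x
    have h1 : ∑ b ∈ P, (ratio P L i j x b / ratio P L i j ((x : ℕ) + 1) b - 1 +
        alpha P L i x b * alpha P L j x b) ≤ 0 :=
      sum_nonpos_of_cls (i := i) (j := j) (L := L) (x := (x : ℕ)) (fun b _ => step hij)
    have h2 : ∀ b ∈ P, 1 - ratio P L i j x b / ratio P L i j ((x : ℕ) + 1) b ≤
        Real.log (ratio P L i j ((x : ℕ) + 1) b) - Real.log (ratio P L i j x b) := by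
      intro b hb
      have p1 := ratio_pos (L := L) (i := i) (j := j) hb x
      have p2 := ratio_pos (L := L) (i := i) (j := j) hb ((x : ℕ) + 1)
      rw [← Real.log_div p2.ne' p1.ne']
      have h3 := Real.one_sub_inv_le_log_of_pos (div_pos p2 p1)
      rwa [inv_div] at h3
    have h4 := sum_le_sum h2
    have h5 : ∑ b ∈ P, (ratio P L i j x b / ratio P L i j ((x : ℕ) + 1) b - 1 +
        alpha P L i x b * alpha P L j x b) =
        ∑ b ∈ P, alpha P L i x b * alpha P L j x b -
        ∑ b ∈ P, (1 - ratio P L i j x b / ratio P L i j ((x : ℕ) + 1) b) := by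
      rw [← sum_sub_distrib]
      refine sum_congr rfl (fun b _ => ?_)
      ring
    linarith
  have hzero : ∀ b ∈ P, Real.log (ratio P L i j 0 b) = 0 := by
    intro b hb
    have h4 : (0 : ℝ) < P.card := by
      rw [Nat.cast_pos, card_pos]; exact ⟨b, hb⟩
    have e : ratio P L i j 0 b = 1 := by
      unfold ratio NP NP2
      rw [filter_true_of_mem (fun c _ => past_zero b c),
        filter_true_of_mem (fun c _ => past_zero b c),
        filter_true_of_mem (fun c _ => ⟨past_zero b c, past_zero b c⟩)]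
      exact div_self (by positivity)
    rw [e, Real.log_one]
  calc ∑ x : Fin n, ∑ b ∈ P, alpha P L i x b * alpha P L j x b
      ≤ ∑ x : Fin n, ∑ b ∈ P, (Real.log (ratio P L i j ((x : ℕ) + 1) b) -
          Real.log (ratio P L i j x b)) := sum_le_sum (fun x _ => hstep x)
    _ = ∑ b ∈ P, ∑ x : Fin n, (Real.log (ratio P L i j ((x : ℕ) + 1) b) -
          Real.log (ratio P L i j x b)) := sum_comm
    _ = ∑ b ∈ P, Real.log (ratio P L i j n b) := by
        refine sum_congr rfl (fun b hb => ?_)
        rw [Fin.sum_univ_eq_sum_range (fun x => Real.log (ratio P L i j (x + 1) b) -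
          Real.log (ratio P L i j x b)) n,
          sum_range_sub (fun x => Real.log (ratio P L i j x b)), hzero b hb, sub_zero]

end Pool.Agent.Lib_helper45.SRO
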