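import Pool.Agent.Lib_helper45.SRO.C

/-!
Module D of the semantic read-once lower bound: labels that are predictable from their past.
-/

namespace Pool.Agent.Lib_helper45.SRO

open Finset Pool.Agent.Lib_helper20.SRO

open Classical in
/-- the prediction from the four probabilities -/
noncomputable def predOf (s : ℝ) (a : Fin 5 → ℝ) : Fin 5 :=
  if h : ∃ i : Fin 5, i ≠ 4 ∧ s < a i ∧ ∀ j : Fin 5, j ≠ 4 → s < a j → j = i then h.choose else 0

theorem predOf_eq {s : ℝ} {a : Fin 5 → ℝ} {i : Fin 5} (hi : i ≠ 4) (h1 : s < a i)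
    (h2 : ∀ j : Fin 5, j ≠ 4 → s < a j → j = i) : predOf s a = i := by
  have hex : ∃ i : Fin 5, i ≠ 4 ∧ s < a i ∧ ∀ j : Fin 5, j ≠ 4 → s < a j → j = i :=
    ⟨i, hi, h1, h2⟩
  rw [predOf, dif_pos hex]
  exact h2 _ hex.choose_spec.1 hex.choose_spec.2.1

/-- the pairs of distinct labels among 0, 1, 2, 3 -/
def prs : Finset (Fin 5 × Fin 5) := univ.filter (fun p => p.1 < p.2 ∧ p.2 ≠ 4)

theorem card_prs : prs.card = 6 := by decide

variable {n : ℕ} {P : Finset (Fin n → Bool)} {L : (Fin n → Bool) → Fin n → Fin 5} {s : ℝ}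

theorem err_le (hs : 0 < s) (a : Fin 5 → ℝ) (ha : ∀ i, 0 ≤ a i) (l : Fin 5) :
    (if l ≠ predOf s a then (1 : ℝ) else 0) ≤ (∑ p ∈ prs, a p.1 * a p.2) / s ^ 2 +
      (∑ j ∈ (univ : Finset (Fin 5)).erase 4, if l = j ∧ a j ≤ s then (1 : ℝ) else 0) +
      (if l = 4 then (1 : ℝ) else 0) := by
  have hT : ∀ p ∈ prs, 0 ≤ a p.1 * a p.2 := fun p _ => mul_nonneg (ha _) (ha _)
  have h1 : 0 ≤ (∑ p ∈ prs, a p.1 * a p.2) / s ^ 2 :=
    div_nonneg (sum_nonneg hT) (by positivity)
  have hB : ∀ j ∈ (univ : Finset (Fin 5)).erase 4,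
      (0 : ℝ) ≤ if l = j ∧ a j ≤ s then (1 : ℝ) else 0 := by
    intro j _
    split_ifs <;> norm_num
  have h2 := sum_nonneg hB
  have h3 : (0 : ℝ) ≤ if l = 4 then (1 : ℝ) else 0 := by split_ifs <;> norm_num
  by_cases hl : l ≠ predOf s a
  · rw [if_pos hl]
    by_cases h4 : l = 4
    · rw [if_pos h4]; linarith
    · by_cases h5 : a l ≤ s
      · have h6 := single_le_sum hB (mem_erase.2 ⟨h4, mem_univ l⟩)
        rw [if_pos ⟨rfl, h5⟩] at h6
        linarith
      · push Not at h5
        have h6 : ∃ i : Fin 5, i ≠ 4 ∧ s < a i ∧ i ≠ l := by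
          by_contra hno
          push Not at hno
          exact hl (predOf_eq h4 h5 hno).symm
        obtain ⟨i, hi4, hi, hil⟩ := h6
        have h7 : s ^ 2 ≤ ∑ p ∈ prs, a p.1 * a p.2 := by
          have h8 : s ^ 2 ≤ a i * a l := by nlinarith
          rcases lt_or_gt_of_ne hil with h9 | h9
          · have h10 := single_le_sum hT (show (i, l) ∈ prs from
              mem_filter.2 ⟨mem_univ _, h9, h4⟩)
            simp only at h10
            linarith
          · have h10 := single_le_sum hT (show (l, i) ∈ prs from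
              mem_filter.2 ⟨mem_univ _, h9, hi4⟩)
            simp only at h10
            linarith [mul_comm (a i) (a l)]
        have h11 : 1 ≤ (∑ p ∈ prs, a p.1 * a p.2) / s ^ 2 := by
          rw [le_div_iff₀ (by positivity)]; linarith
        linarith
  · rw [if_neg hl]; linarith

theorem small_le (hs : 0 < s) (x : Fin n) (j : Fin 5) :
    ∑ b ∈ P, (if L b x = j ∧ alpha P L j x b ≤ s then (1 : ℝ) else 0) ≤ s * P.card := by
  classical
  have h := sum_nonpos_of_cls (P := P) (L := L) (i := j) (j := j) (x := (x : ℕ))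
    (g := fun b => (if L b x = j ∧ alpha P L j x b ≤ s then (1 : ℝ) else 0) - s) ?_
  · rw [sum_sub_distrib, sum_const, nsmul_eq_mul] at h
    linarith
  · intro b hb
    have hZ : ((cls P L j j x b).card : ℝ) = NP P L j x b := by
      rw [cls, NP]
      simp only [and_self]
    have hpos := NP_pos (L := L) (i := j) hb x
    rw [sum_sub_distrib, sum_const, nsmul_eq_mul, hZ, sub_nonpos]
    by_cases ha : alpha P L j x b ≤ s
    · have h1 : ∑ c ∈ cls P L j j x b, (if L c x = j ∧ alpha P L j x c ≤ s then (1 : ℝ) else 0) =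
          alpha P L j x b * NP P L j x b := by
        rw [alpha, div_mul_cancel₀ _ hpos.ne', sum_boole]
        congr 2
        ext c
        rw [mem_filter, mem_filter, mem_cls]
        constructor
        · rintro ⟨⟨hc, h2, _⟩, h3, _⟩
          exact ⟨hc, h2, h3⟩
        · rintro ⟨hc, h2, h3⟩
          exact ⟨⟨hc, h2, h2⟩, h3, by rw [alpha_congr h2]; exact ha⟩
      rw [h1]
      nlinarith
    · have h1 : ∑ c ∈ cls P L j j x b, (if L c x = j ∧ alpha P L j x c ≤ s then (1 : ℝ) else 0) =
          0 := by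
        refine sum_eq_zero (fun c hc => ?_)
        rw [if_neg]
        rintro ⟨_, h2⟩
        rw [alpha_congr (mem_cls.1 hc).2.1] at h2
        exact ha h2
      rw [h1]
      positivity

/-- the prediction -/
noncomputable def prd (P : Finset (Fin n → Bool)) (L : (Fin n → Bool) → Fin n → Fin 5) (s : ℝ)
    (b : Fin n → Bool) (x : Fin n) : Fin 5 := predOf s (fun i => alpha P L i x b)

theorem prd_congr {x : Fin n} {b b' : Fin n → Bool} (h : ∀ y, y < x → L b y = L b' y) :
    prd P L s b x = prd P L s b' x := by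
  unfold prd
  congr 1
  funext i
  symm
  refine alpha_congr (fun y hy => ?_)
  rw [h y hy]

/-- the error vector -/
noncomputable def ev (P : Finset (Fin n → Bool)) (L : (Fin n → Bool) → Fin n → Fin 5) (s : ℝ)
    (b : Fin n → Bool) (x : Fin n) : Fin 5 := L b x - prd P L s b x

theorem ev_inj {b b' : Fin n → Bool} (h : ev P L s b = ev P L s b') : L b = L b' := by
  have key : ∀ m : ℕ, ∀ x : Fin n, (x : ℕ) = m → L b x = L b' x := by
    intro m
    induction m using Nat.strong_induction_on with
    | _ m ih =>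
      intro x hx
      have h1 : prd P L s b x = prd P L s b' x :=
        prd_congr (fun y hy => ih y (by rw [← hx]; exact hy) y rfl)
      have h2 := congrFun h x
      unfold ev at h2
      rw [h1] at h2
      exact sub_left_injective h2
  funext x
  exact key x x rfl

theorem count_ev (n : ℕ) :
    (((univ : Finset (Fin n → Fin 5)).filter
      (fun e => 10 * (univ.filter (fun x => e x ≠ 0)).card ≤ n)).card : ℝ) ≤
      (Real.sqrt 2 * (9 / 8)) ^ n := by
  have hsq : Real.sqrt 2 ^ 10 = 32 := by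
    have : Real.sqrt 2 ^ 2 = 2 := Real.sq_sqrt (by norm_num)
    calc Real.sqrt 2 ^ 10 = (Real.sqrt 2 ^ 2) ^ 5 := by ring
      _ = 32 := by rw [this]; norm_num
  have h1 : (1 : ℝ) ≤ Real.sqrt 2 := by
    rw [Real.one_le_sqrt]; norm_num
  have hprod : ∀ e : Fin n → Fin 5, ∏ x, (if e x = 0 then (1 : ℝ) else 1 / 32) =
      (1 / 32) ^ (univ.filter (fun x => e x ≠ 0)).card := by
    intro e
    rw [prod_ite, prod_const_one, one_mul, prod_const]
  have hsum : ∑ e : Fin n → Fin 5, ∏ x, (if e x = 0 then (1 : ℝ) else 1 / 32) = (9 / 8) ^ n := by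
    rw [← Fintype.prod_sum (fun (_ : Fin n) (c : Fin 5) => (if c = 0 then (1 : ℝ) else 1 / 32))]
    rw [prod_const, card_univ, Fintype.card_fin, Fin.sum_univ_five]
    rw [if_pos rfl, if_neg (by decide), if_neg (by decide), if_neg (by decide),
      if_neg (by decide)]
    norm_num
  rw [mul_pow, ← hsum, mul_sum, card_eq_sum_ones, Nat.cast_sum]
  have hA : ∀ e ∈ (univ : Finset (Fin n → Fin 5)).filter
      (fun e => 10 * (univ.filter (fun x => e x ≠ 0)).card ≤ n), ((1 : ℕ) : ℝ) ≤
      Real.sqrt 2 ^ n * ∏ x, (if e x = 0 then (1 : ℝ) else 1 / 32) := by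
    intro e he
    have hk := (mem_filter.1 he).2
    rw [Nat.cast_one, hprod e]
    set k := (univ.filter (fun x => e x ≠ 0)).card with hkdef
    have h2 : Real.sqrt 2 ^ (10 * k) ≤ Real.sqrt 2 ^ n := pow_le_pow_right₀ h1 hk
    have h3 : Real.sqrt 2 ^ (10 * k) * (1 / 32) ^ k = 1 := by
      rw [pow_mul, hsq, ← mul_pow]; norm_num
    exact h3.symm.le.trans (mul_le_mul_of_nonneg_right h2 (by positivity))
  refine (sum_le_sum hA).trans (sum_le_sum_of_subset_of_nonneg (filter_subset _ univ) ?_)
  intro e _ _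
  refine mul_nonneg (by positivity) (prod_nonneg (fun x _ => ?_))
  split_ifs <;> norm_num

theorem stmtD : StmtD := by
  classical
  intro n P L I s hne hs hI hsum
  have hP : (0 : ℝ) < P.card := by rw [Nat.cast_pos, card_pos]; exact hne
  set er : (Fin n → Bool) → Fin n → ℝ :=
    fun b x => if L b x ≠ prd P L s b x then (1 : ℝ) else 0 with her
  have her0 : ∀ b x, 0 ≤ er b x := by
    intro b x
    rw [her]; simp only
    split_ifs <;> norm_num
  -- total number of errors
  have htot : ∑ b ∈ P, ∑ x : Fin n, er b x ≤ P.card * ((n : ℝ) / 20) := by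
    have h1 : ∀ b ∈ P, ∀ x : Fin n, er b x ≤
        (∑ p ∈ prs, alpha P L p.1 x b * alpha P L p.2 x b) / s ^ 2 +
        (∑ j ∈ (univ : Finset (Fin 5)).erase 4,
          if L b x = j ∧ alpha P L j x b ≤ s then (1 : ℝ) else 0) +
        (if L b x = 4 then (1 : ℝ) else 0) := by
      intro b _ x
      exact err_le hs (fun i => alpha P L i x b) (fun i => alpha_nonneg x b) (L b x)
    have h2 : ∑ b ∈ P, ∑ x : Fin n, er b x ≤ ∑ b ∈ P, ∑ x : Fin n,
        ((∑ p ∈ prs, alpha P L p.1 x b * alpha P L p.2 x b) / s ^ 2 +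
        (∑ j ∈ (univ : Finset (Fin 5)).erase 4,
          if L b x = j ∧ alpha P L j x b ≤ s then (1 : ℝ) else 0) +
        (if L b x = 4 then (1 : ℝ) else 0)) :=
      sum_le_sum (fun b hb => sum_le_sum (fun x _ => h1 b hb x))
    refine h2.trans ?_
    rw [sum_comm]
    simp only [sum_add_distrib]
    have hA : ∑ x : Fin n, ∑ b ∈ P,
        (∑ p ∈ prs, alpha P L p.1 x b * alpha P L p.2 x b) / s ^ 2 ≤ 6 * (I * P.card) / s ^ 2 := by
      have e1 : ∑ x : Fin n, ∑ b ∈ P,
          (∑ p ∈ prs, alpha P L p.1 x b * alpha P L p.2 x b) / s ^ 2 =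
          (∑ p ∈ prs, ∑ x : Fin n, ∑ b ∈ P, alpha P L p.1 x b * alpha P L p.2 x b) / s ^ 2 := by
        simp only [← sum_div]
        congr 1
        rw [sum_comm]
        refine sum_comm.trans ?_
        rw [sum_comm]
        have : ∀ x : Fin n, ∑ b ∈ P, ∑ p ∈ prs, alpha P L p.1 x b * alpha P L p.2 x b =
            ∑ p ∈ prs, ∑ b ∈ P, alpha P L p.1 x b * alpha P L p.2 x b := fun x => sum_comm
        rw [sum_comm]
        simp only [this]
        exact sum_comm
      rw [e1]
      refine div_le_div_of_nonneg_right ?_ (by positivity)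
      have e2 : ∀ p ∈ prs, ∑ x : Fin n, ∑ b ∈ P, alpha P L p.1 x b * alpha P L p.2 x b ≤
          I * P.card := by
        intro p hp
        have hp' := (mem_filter.1 hp).2
        refine hI p.1 p.2 hp'.1.ne ?_ hp'.2
        intro h4
        have := hp'.1
        rw [h4] at this
        exact absurd this (not_lt.2 (Fin.le_last _))
      refine (sum_le_sum e2).trans (le_of_eq ?_)
      rw [sum_const, card_prs]
      norm_num
    have hB : ∑ x : Fin n, ∑ b ∈ P, ∑ j ∈ (univ : Finset (Fin 5)).erase 4,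
        (if L b x = j ∧ alpha P L j x b ≤ s then (1 : ℝ) else 0) ≤ n * (4 * (s * P.card)) := by
      have e1 : ∀ x : Fin n, ∑ b ∈ P, ∑ j ∈ (univ : Finset (Fin 5)).erase 4,
          (if L b x = j ∧ alpha P L j x b ≤ s then (1 : ℝ) else 0) ≤ 4 * (s * P.card) := by
        intro x
        rw [sum_comm]
        refine (sum_le_sum (fun j _ => small_le hs x j)).trans (le_of_eq ?_)
        rw [sum_const, card_erase_of_mem (mem_univ _), card_univ, Fintype.card_fin]
        norm_num
      refine (sum_le_sum (fun x _ => e1 x)).trans (le_of_eq ?_)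
      rw [sum_const, card_univ, Fintype.card_fin, nsmul_eq_mul]
    have hC := mul_le_mul_of_nonneg_left hsum hP.le
    have e3 : (P.card : ℝ) * (6 * I / s ^ 2 + 4 * s * n +
        (∑ x : Fin n, ∑ b ∈ P, if L b x = 4 then (1 : ℝ) else 0) / P.card) =
        6 * (I * P.card) / s ^ 2 + n * (4 * (s * P.card)) +
        ∑ x : Fin n, ∑ b ∈ P, (if L b x = 4 then (1 : ℝ) else 0) := by
      field_simp
    rw [e3] at hC
    linarith
  -- few errors
  set Q := P.filter (fun b => ∑ x : Fin n, er b x ≤ (n : ℝ) / 10) with hQ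
  refine ⟨Q, filter_subset _ _, ?_, ?_⟩
  · -- Markov
    have h1 : P.card = Q.card + (P.filter (fun b => ¬ ∑ x : Fin n, er b x ≤ (n : ℝ) / 10)).card :=
      (card_filter_add_card_filter_not _).symm
    set B := P.filter (fun b => ¬ ∑ x : Fin n, er b x ≤ (n : ℝ) / 10) with hB
    have h2 : (B.card : ℝ) * ((n : ℝ) / 10) ≤ P.card * ((n : ℝ) / 20) := by
      refine le_trans ?_ htot
      calc (B.card : ℝ) * ((n : ℝ) / 10) = ∑ b ∈ B, (n : ℝ) / 10 := by
            rw [sum_const, nsmul_eq_mul]
        _ ≤ ∑ b ∈ B, ∑ x : Fin n, er b x := by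
            refine sum_le_sum (fun b hb => ?_)
            exact (not_le.1 (mem_filter.1 hb).2).le
        _ ≤ ∑ b ∈ P, ∑ x : Fin n, er b x :=
            sum_le_sum_of_subset_of_nonneg (filter_subset _ _)
              (fun b _ _ => sum_nonneg (fun x _ => her0 b x))
    have h3 : 2 * (B.card : ℝ) ≤ P.card := by
      rcases Nat.eq_zero_or_pos n with hn | hn
      · have hBe : B = ∅ := by
          rw [hB, filter_eq_empty_iff]
          intro b _
          rw [not_not]
          subst hn
          simp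
        rw [hBe, card_empty]
        simp
      · have hn' : (0 : ℝ) < n := by exact_mod_cast hn
        by_contra hcon
        push Not at hcon
        nlinarith
    have h4 : (P.card : ℝ) = Q.card + B.card := by exact_mod_cast h1
    linarith
  · refine le_trans ?_ (count_ev n)
    rw [Nat.cast_le]
    refine card_le_card_of_injOn (fun l => ev P L s (Function.invFunOn L (Q : Set _) l)) ?_ ?_
    · intro l hl
      rw [mem_coe, mem_image] at hl
      have hl' : ∃ b ∈ (Q : Set (Fin n → Bool)), L b = l := by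
        obtain ⟨b, hb, hbl⟩ := hl
        exact ⟨b, mem_coe.2 hb, hbl⟩
      have hbQ := Function.invFunOn_mem hl'
      set b := Function.invFunOn L (Q : Set (Fin n → Bool)) l with hb
      rw [mem_coe, mem_filter]
      refine ⟨mem_univ _, ?_⟩
      have h1 := (mem_filter.1 (mem_coe.1 hbQ)).2
      have h2 : ∑ x : Fin n, er b x =
          ((univ.filter (fun x => ev P L s b x ≠ 0)).card : ℝ) := by
        rw [← sum_boole]
        refine sum_congr rfl (fun x _ => ?_)
        rw [her]
        simp only [ev, ne_eq, sub_eq_zero]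
      rw [h2] at h1
      have h3 : (10 : ℝ) * ((univ.filter (fun x => ev P L s b x ≠ 0)).card : ℝ) ≤ n := by
        linarith
      exact_mod_cast h3
    · intro l hl l' hl' h
      rw [mem_coe, mem_image] at hl hl'
      have hl1 : ∃ b ∈ (Q : Set (Fin n → Bool)), L b = l := by
        obtain ⟨b, hb, hbl⟩ := hl
        exact ⟨b, mem_coe.2 hb, hbl⟩
      have hl2 : ∃ b ∈ (Q : Set (Fin n → Bool)), L b = l' := by
        obtain ⟨b, hb, hbl⟩ := hl'
        exact ⟨b, mem_coe.2 hb, hbl⟩
      rw [← Function.invFunOn_eq hl1, ← Function.invFunOn_eq hl2]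
      exact ev_inj h

end Pool.Agent.Lib_helper45.SRO
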