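import Pool.Agent.Lib_helper45.SRO.U

/-!
Modules U2, U3: small syntactic read-once programs for the complement of the hard functions.
-/

namespace Pool.Agent.Lib_helper45.SRO

open Finset Pool.Agent.Lib_helper20.SRO

/-! ### automata given by lists of variables -/

theorem run_list {V Q : Type} {M : ℕ} (L : List V) (hM : L.length = M) (init : Q)
    (st : Q → V → Bool → Q) (b : V → Bool) : ∀ (j : ℕ) (h : j ≤ M),
    run (fun i : Fin M => L.get (Fin.cast hM.symm i)) init
      (fun i q c => st q (L.get (Fin.cast hM.symm i)) c) b j h =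
      (L.take j).foldl (fun q x => st q x (b x)) init := by
  intro j
  induction j with
  | zero => intro _; rfl
  | succ j ih =>
    intro h
    have hj : j < L.length := by omega
    have e1 : L.take (j + 1) = L.take j ++ [L.get ⟨j, hj⟩] := by
      rw [List.take_add_one, List.getElem?_eq_getElem hj]
      rfl
    rw [e1, List.foldl_append, ← ih (Nat.le_of_succ_le h)]
    rfl

theorem uList {V Q : Type} {T M : ℕ} (L : Fin T → List V) (hM : ∀ t, (L t).length = M)
    (hnd : ∀ t, (L t).Nodup) (init : Q) (st : Fin T → Q → V → Bool → Q)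
    (acc : Fin T → Q → Prop) :
    ∃ G : NBP V ((Fin T × Fin (M + 1) × Q) ⊕ Bool), G.SyntacticReadOnce ∧
      ∀ b, G.Accepts b ↔ ∃ t, acc t ((L t).foldl (fun q x => st t q x (b x)) init) := by
  obtain ⟨G, hG1, hG2⟩ := stmtU V Q T M (fun t i => (L t).get (Fin.cast (hM t).symm i))
    (fun _ => init) (fun t i q c => st t q ((L t).get (Fin.cast (hM t).symm i)) c) acc (by
      intro t i j h
      have h1 := (List.nodup_iff_injective_get.1 (hnd t)) h
      exact Fin.cast_injective _ h1)
  refine ⟨G, hG1, fun b => ?_⟩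
  rw [hG2 b]
  refine exists_congr (fun t => ?_)
  rw [run_list (L t) (hM t) init (st t) b M le_rfl, List.take_of_length_le (hM t).le]

/-! ### parities -/

theorem zmod2_eq_one (x : ZMod 2) : x = 1 ↔ x ≠ 0 := by revert x; decide

/-- parity of the weight -/
def par {n : ℕ} (b : Fin n → Bool) : ZMod 2 := ∑ i, if b i then 1 else 0

theorem par_eq {n : ℕ} (b : Fin n → Bool) : evenWeight b = true ↔ par b = 0 := by
  unfold par evenWeight
  rw [decide_eq_true_iff, sum_boole, ZMod.natCast_eq_zero_iff]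
  omega

theorem final_iff {n k T : ℕ} (hT : 0 < T) (C : Fin T → Fin k → Bool → Fin n → Bool)
    (e : Fin T → Bool) (b : Fin n → Bool) :
    (∃ t, par b = 1 ∨ quad (C t) b ≠ if e t then 1 else 0) ↔ (!QF C e b) = true := by
  rw [QF, Bool.not_and, Bool.or_eq_true, Bool.not_eq_true', Bool.not_eq_true',
    decide_eq_false_iff_not, ← Bool.not_eq_true, par_eq, zmod2_eq_one]
  push Not
  constructor
  · rintro ⟨t, h | h⟩
    · exact Or.inl h
    · exact Or.inr ⟨t, h⟩
  · rintro (h | ⟨t, h⟩)
    · exact ⟨⟨0, hT⟩, Or.inl h⟩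
    · exact ⟨t, Or.inr h⟩

/-! ### numbers -/

theorem pow_kk (n : ℕ) (hn : 16 ≤ n) : 4 ^ kk n ≤ n ^ 2 := by
  have h1 : 2 ^ kk n ≤ n := Nat.pow_log_le_self 2 (by omega)
  calc 4 ^ kk n = (2 ^ kk n) ^ 2 := by
        rw [← pow_mul, mul_comm, pow_mul]
        norm_num
    _ ≤ n ^ 2 := Nat.pow_le_pow_left h1 2

theorem four_le_kk (n : ℕ) (hn : 16 ≤ n) : 4 ≤ kk n := by
  have h1 : kk 16 ≤ kk n := Nat.log_mono_right hn
  have h2 : kk 16 = 4 := by
    unfold kk
    rw [show (16 : ℕ) = 2 ^ 4 by norm_num, Nat.log_pow (by norm_num)]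
  omega

theorem tt_pos (n : ℕ) : 0 < tt n := Nat.succ_pos _

theorem le_tt_mul (n : ℕ) (hn : 16 ≤ n) : n ≤ tt n * kk n := by
  have h4 := four_le_kk n hn
  have h1 := Nat.div_add_mod n (kk n)
  have h2 := Nat.mod_lt n (show 0 < kk n by omega)
  unfold tt
  nlinarith

theorem card_regs (k : ℕ) : Fintype.card (Fin k → Bool → ZMod 2) = 4 ^ k := by
  rw [Fintype.card_fun, Fintype.card_fun, Fintype.card_bool, ZMod.card, Fintype.card_fin]
  norm_num

/-! ### U3 -/

theorem fold3 {n k : ℕ} (D : Fin k → Bool → Fin n → Bool) (b : Fin n → Bool)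
    (K : List (Fin n)) : ∀ (R : Fin k → Bool → ZMod 2) (p : ZMod 2),
    K.foldl (fun (q : (Fin k → Bool → ZMod 2) × ZMod 2) x =>
      ((fun l s => q.1 l s + if D l s x && b x then 1 else 0), q.2 + if b x then 1 else 0))
      (R, p) = ((fun l s => R l s + (K.map (fun i => if D l s i && b i then (1 : ZMod 2) else 0)).sum),
        p + (K.map (fun i => if b i then (1 : ZMod 2) else 0)).sum) := by
  induction K with
  | nil => intro R p; simp
  | cons i K ih =>
    intro R p
    rw [List.foldl_cons, ih]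
    simp only [List.map_cons, List.sum_cons, add_assoc]

theorem stmtU3 : StmtU3 := by
  intro n hn C e
  obtain ⟨G, hG1, hG2⟩ := uList (V := Fin n) (Q := (Fin (kk n) → Bool → ZMod 2) × ZMod 2)
    (T := tt n) (M := n) (fun _ => List.finRange n) (fun _ => List.length_finRange)
    (fun _ => List.nodup_finRange n) ((fun _ _ => 0), 0)
    (fun t q x c => ((fun l s => q.1 l s + if C t l s x && c then 1 else 0),
      q.2 + if c then 1 else 0))
    (fun t q => q.2 = 1 ∨ ∑ l, q.1 l false * q.1 l true ≠ if e t then 1 else 0)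
  refine ⟨_, inferInstance, G, hG1, ?_, ?_⟩
  · intro b
    rw [hG2 b, ← final_iff (tt_pos n)]
    refine exists_congr (fun t => ?_)
    rw [fold3 (C t) b (List.finRange n)]
    have e1 : par b = 0 + ((List.finRange n).map (fun i => if b i then (1 : ZMod 2) else 0)).sum := by
      rw [zero_add, par, Fin.sum_univ_def]
    have e2 : quad (C t) b = ∑ l, (0 + ((List.finRange n).map
        (fun i => if C t l false i && b i then (1 : ZMod 2) else 0)).sum) *
        (0 + ((List.finRange n).map
        (fun i => if C t l true i && b i then (1 : ZMod 2) else 0)).sum) := by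
      unfold quad dot
      simp only [zero_add, Fin.sum_univ_def]
    rw [e1, e2]
  · rw [Fintype.card_sum, Fintype.card_prod, Fintype.card_prod, Fintype.card_prod, card_regs,
      ZMod.card, Fintype.card_fin, Fintype.card_fin, Fintype.card_bool]
    have h1 := pow_kk n hn
    have h4 := four_le_kk n hn
    have h2 : tt n ≤ n / 4 + 1 := by
      unfold tt
      have := Nat.div_le_div_left h4 (show 0 < 4 by norm_num) (a := n)
      omega
    have h3 : 4 * tt n ≤ n + 4 := by omega
    have h5 : tt n * ((n + 1) * (4 ^ kk n * 2)) ≤ tt n * ((n + 1) * (n ^ 2 * 2)) := by gcongr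
    have h6 : 4 * (tt n * ((n + 1) * (n ^ 2 * 2))) ≤ (n + 4) * ((n + 1) * (n ^ 2 * 2)) := by
      calc 4 * (tt n * ((n + 1) * (n ^ 2 * 2))) = (4 * tt n) * ((n + 1) * (n ^ 2 * 2)) := by ring
        _ ≤ (n + 4) * ((n + 1) * (n ^ 2 * 2)) := by gcongr
    have h7 : (n + 4) * ((n + 1) * (n ^ 2 * 2)) + 8 ≤ 4 * n ^ 4 := by
      have e : n ^ 4 = n * n * n ^ 2 := by ring
      have h8 : (n + 4) * ((n + 1) * 2) + 1 ≤ 4 * (n * n) := by nlinarith
      have h9 : 8 ≤ n ^ 2 := by nlinarith
      calc (n + 4) * ((n + 1) * (n ^ 2 * 2)) + 8 ≤ (n + 4) * ((n + 1) * (n ^ 2 * 2)) + n ^ 2 := by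
            omega
        _ = ((n + 4) * ((n + 1) * 2) + 1) * n ^ 2 := by ring
        _ ≤ 4 * (n * n) * n ^ 2 := by gcongr
        _ = 4 * n ^ 4 := by rw [e]; ring
    omega

end Pool.Agent.Lib_helper45.SRO
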