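import Pool.Agent.Lib_helper20.SRO.Defs2

/-!
Module R of the semantic read-once lower bound: fixing variables.
-/

namespace Pool.Agent.Lib_helper45.SRO

open Finset Pool.Agent.Lib_helper20.SRO

variable {W : Type} {n : ℕ} {N : Type}

/-- the program with the variables of `W` fixed -/
def fixW (G : NBP (W ⊕ Fin n) N) (a : W → Bool) : NBP (Fin n) N where
  source := G.source
  sink := G.sink
  edge := fun u v t => match t with
    | none => G.edge u v none ∨ ∃ y : W, G.edge u v (some (Sum.inl y, a y))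
    | some (x, c) => G.edge u v (some (Sum.inr x, c))

/-- the tests of the remaining variables -/
def proj : List ((W ⊕ Fin n) × Bool) → List (Fin n × Bool)
  | [] => []
  | (Sum.inl _, _) :: l => proj l
  | (Sum.inr x, c) :: l => (x, c) :: proj l

theorem mem_proj {l : List ((W ⊕ Fin n) × Bool)} {x : Fin n} {c : Bool} :
    (x, c) ∈ proj l ↔ (Sum.inr x, c) ∈ l := by
  induction l with
  | nil => simp [proj]
  | cons p l ih =>
    obtain ⟨y | y, d⟩ := p
    · simp [proj, ih]
    · simp [proj, ih]

theorem nodup_proj {l : List ((W ⊕ Fin n) × Bool)} (h : (l.map Prod.fst).Nodup) :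
    ((proj l).map Prod.fst).Nodup := by
  induction l with
  | nil => simp [proj]
  | cons p l ih =>
    obtain ⟨y | y, d⟩ := p
    · simp only [List.map_cons, List.nodup_cons] at h
      simpa [proj] using ih h.2
    · simp only [List.map_cons, List.nodup_cons] at h
      simp only [proj, List.map_cons, List.nodup_cons]
      refine ⟨?_, ih h.2⟩
      intro hy
      obtain ⟨q, hq, hqy⟩ := List.mem_map.1 hy
      refine h.1 (List.mem_map.2 ⟨(Sum.inr q.1, q.2), mem_proj.1 hq, ?_⟩)
      rw [← hqy]

theorem walk_fix {G : NBP (W ⊕ Fin n) N} {a : W → Bool} {u v : N}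
    {l : List ((W ⊕ Fin n) × Bool)} (h : Walk G u v l) :
    (∀ y c, (Sum.inl y, c) ∈ l → c = a y) → Walk (fixW G a) u v (proj l) := by
  induction h with
  | nil u => intro _; exact Walk.nil u
  | free he _ ih =>
    intro h
    exact Walk.free (Or.inl he) (ih h)
  | test x c he _ ih =>
    intro h
    obtain y | y := x
    · have hc : c = a y := h y c List.mem_cons_self
      subst hc
      exact Walk.free (Or.inr ⟨y, he⟩) (ih (fun y' c' h' => h y' c' (List.mem_cons_of_mem _ h')))
    · exact Walk.test y c he (ih (fun y' c' h' => h y' c' (List.mem_cons_of_mem _ h')))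

theorem walk_lift {G : NBP (W ⊕ Fin n) N} {a : W → Bool} {u v : N}
    {l' : List (Fin n × Bool)} (h : Walk (fixW G a) u v l') :
    ∃ l, Walk G u v l ∧ proj l = l' ∧ ∀ y c, (Sum.inl y, c) ∈ l → c = a y := by
  induction h with
  | nil u => exact ⟨[], Walk.nil u, rfl, by simp⟩
  | free he _ ih =>
    obtain ⟨l, hl, hp, ha⟩ := ih
    rcases he with he | ⟨y, he⟩
    · exact ⟨l, Walk.free he hl, hp, ha⟩
    · refine ⟨(Sum.inl y, a y) :: l, Walk.test _ _ he hl, by simpa [proj] using hp, ?_⟩
      intro y' c' h'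
      rcases List.mem_cons.1 h' with h'' | h''
      · simp only [Prod.mk.injEq, Sum.inl.injEq] at h''
        rw [h''.1, h''.2]
      · exact ha y' c' h''
  | test x c he _ ih =>
    obtain ⟨l, hl, hp, ha⟩ := ih
    refine ⟨(Sum.inr x, c) :: l, Walk.test _ _ he hl, by simp [proj, hp], ?_⟩
    intro y' c' h'
    rcases List.mem_cons.1 h' with h'' | h''
    · simp at h''
    · exact ha y' c' h''

theorem agrees_elim {a : W → Bool} {b : Fin n → Bool} {l : List ((W ⊕ Fin n) × Bool)}
    (h1 : Agrees b (proj l)) (h2 : ∀ y c, (Sum.inl y, c) ∈ l → c = a y) :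
    Agrees (Sum.elim a b) l := by
  rintro ⟨y | y, c⟩ hp
  · exact (h2 y c hp).symm
  · exact h1 (y, c) (mem_proj.2 hp)

theorem stmtR : StmtR := by
  intro W n N G a F hsro hcomp
  refine ⟨fixW G a, ?_, ?_⟩
  · rintro l' hl' ⟨b, hb⟩
    obtain ⟨l, hl, hp, ha⟩ := walk_lift hl'
    rw [← hp]
    refine nodup_proj (hsro l hl ⟨Sum.elim a b, agrees_elim ?_ ha⟩)
    rw [hp]
    exact hb
  · intro b
    rw [← hcomp (Sum.elim a b)]
    constructor
    · rintro ⟨l', hl', hb⟩
      obtain ⟨l, hl, hp, ha⟩ := walk_lift hl'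
      refine ⟨l, hl, agrees_elim ?_ ha⟩
      rw [hp]
      exact hb
    · rintro ⟨l, hl, hb⟩
      refine ⟨proj l, walk_fix hl ?_, ?_⟩
      · intro y c h
        exact (hb (Sum.inl y, c) h).symm
      · rintro ⟨x, c⟩ h
        exact hb (Sum.inr x, c) (mem_proj.1 h)

end Pool.Agent.Lib_helper45.SRO
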