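import Pool.Agent.Lib_helper20.SRO.Defs2
import Pool.Agent.Lib_helper39.SRO.B

/-!
Module F of the semantic read-once lower bound: from the core to the hard function.
-/

namespace Pool.Agent.Lib_helper45.SRO

open Finset Pool.Agent.Lib_helper20.SRO

theorem evenWeight_flip {n : ℕ} (b : Fin n → Bool) (x : Fin n) :
    evenWeight (flipAt b x) = !evenWeight b := by
  have key : ∀ b : Fin n → Bool, b x = false →
      (univ.filter (fun y => flipAt b x y = true)).card =
        (univ.filter (fun y => b y = true)).card + 1 := by
    intro b hb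
    have h1 : univ.filter (fun y => flipAt b x y = true) =
        insert x (univ.filter (fun y => b y = true)) := by
      ext y
      rw [mem_filter, mem_insert, mem_filter]
      by_cases hy : y = x
      · subst hy
        simp [flipAt, hb]
      · simp [flipAt, hy]
    rw [h1, card_insert_of_notMem]
    simp [hb]
  have hpar : ∀ m : ℕ, decide ((m + 1) % 2 = 0) = !decide (m % 2 = 0) := by
    intro m
    rcases Nat.mod_two_eq_zero_or_one m with h | h
    · have : (m + 1) % 2 = 1 := by omega
      simp [h, this]
    · have : (m + 1) % 2 = 0 := by omega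
      simp [h, this]
  cases hb : b x
  · unfold evenWeight
    rw [key b hb, hpar]
  · have h1 : flipAt b x x = false := by simp [flipAt, hb]
    have h2 : flipAt (flipAt b x) x = b := by
      funext y
      by_cases hy : y = x
      · subst hy; simp [flipAt]
      · simp [flipAt, Function.update_of_ne hy]
    have h3 := key (flipAt b x) h1
    rw [h2] at h3
    have h4 : evenWeight b = !evenWeight (flipAt b x) := by
      unfold evenWeight
      rw [h3, hpar]
    rw [h4, Bool.not_not]

theorem flipAt_flipAt {n : ℕ} (b : Fin n → Bool) (x : Fin n) : flipAt (flipAt b x) x = b := by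
  funext y
  by_cases hy : y = x
  · subst hy; simp [flipAt]
  · simp [flipAt, Function.update_of_ne hy]

theorem card_even {n : ℕ} (hn : 0 < n) :
    2 * (univ.filter (fun b : Fin n → Bool => evenWeight b = true)).card = 2 ^ n := by
  have h1 : (univ.filter (fun b : Fin n → Bool => evenWeight b = true)).card =
      (univ.filter (fun b : Fin n → Bool => ¬ evenWeight b = true)).card := by
    refine card_bij (fun b _ => flipAt b ⟨0, hn⟩) ?_ ?_ ?_
    · intro b hb
      rw [mem_filter] at hb ⊢
      rw [evenWeight_flip, hb.2]
      simp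
    · intro b _ b' _ h
      have := congrArg (fun c => flipAt c ⟨0, hn⟩) h
      simpa [flipAt_flipAt] using this
    · intro b hb
      rw [mem_filter] at hb
      refine ⟨flipAt b ⟨0, hn⟩, ?_, flipAt_flipAt _ _⟩
      rw [mem_filter, evenWeight_flip]
      simpa using hb.2
  have h2 := card_filter_add_card_filter_not (s := (univ : Finset (Fin n → Bool)))
    (fun b : Fin n → Bool => evenWeight b = true)
  rw [card_univ, Fintype.card_fun, Fintype.card_bool, Fintype.card_fin] at h2
  omega

theorem card_var (n : ℕ) : Fintype.card (Var n) ≤ (n + 3) ^ 3 := by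
  rw [Fintype.card_sum, Fintype.card_sum, Fintype.card_sum, Fintype.card_prod,
    Fintype.card_fin, Fintype.card_fin, Fintype.card_fin, Fintype.card_unit]
  nlinarith

theorem stmtF : StmtF := by
  classical
  rintro ⟨c, hc, n1, hcore⟩ hB hR
  refine ⟨c / 2, by positivity, max n1 20, ?_⟩
  intro n hn N _ G hsro hcomp
  have hn1 : n1 ≤ n := (le_max_left _ _).trans hn
  have hn20 : 20 ≤ n := (le_max_right _ _).trans hn
  -- the prime
  obtain ⟨p, hp, hp1, hp2⟩ := Nat.exists_prime_lt_and_le_two_mul (2 ^ n) (by positivity)
  have hp3 : p < 2 ^ (n + 1) := by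
    rw [← pow_succ'] at hp2
    refine lt_of_le_of_ne hp2 ?_
    intro h
    rw [h] at hp
    exact Nat.Prime.not_prime_pow (by omega) hp
  obtain ⟨pb, hpb⟩ := Pool.Agent.Lib_helper39.SRO.exists_binVal (r := n + 1) p hp3
  obtain ⟨cc, hcc⟩ := hB n p hn20 hp hp1.le hp3
  -- the bit
  set F : Bool → Finset (Fin n → Bool) := fun e =>
    univ.filter (fun b => (evenWeight b && decide (polyBit p cc b = e)) = true) with hF
  have hsum : (F true).card + (F false).card =
      (univ.filter (fun b : Fin n → Bool => evenWeight b = true)).card := by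
    rw [← card_filter_add_card_filter_not
      (s := univ.filter (fun b : Fin n → Bool => evenWeight b = true))
      (fun b : Fin n → Bool => polyBit p cc b = true), filter_filter, filter_filter]
    congr 2
    · ext b
      simp [F]
    · ext b
      simp [F]
  have hev := card_even (n := n) (by omega)
  have hex : ∃ e : Bool, 2 ^ n ≤ 4 * (F e).card := by
    by_contra hno
    push Not at hno
    have h1 := hno true
    have h2 := hno false
    omega
  obtain ⟨e, he⟩ := hex
  obtain ⟨G', hG'1, hG'2⟩ := hR _ n N G
    (Sum.elim pb (Sum.elim (fun ij : Fin ((n + 2) ^ 2) × Fin (n + 1) => cc ij.1 ij.2)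
      (fun _ : Unit => e))) (hardF n) hsro hcomp
  have hG'3 : G'.Computes (fun b => evenWeight b && decide (polyBit p cc b = e)) := by
    intro b
    rw [hG'2 b]
    have h1 : hardF n (Sum.elim (Sum.elim pb (Sum.elim
        (fun ij : Fin ((n + 2) ^ 2) × Fin (n + 1) => cc ij.1 ij.2) (fun _ : Unit => e))) b) =
        (evenWeight b && decide (polyBit (binVal pb) cc b = e)) := rfl
    beta_reduce
    rw [h1, hpb]
  have hrig : Rigid (fun b : Fin n → Bool => evenWeight b && decide (polyBit p cc b = e)) := by
    intro b x hb
    simp only [Bool.and_eq_true] at hb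
    simp only [evenWeight_flip, hb.1, Bool.not_true, Bool.false_and]
  have hrect : RectFree (fun b : Fin n → Bool => evenWeight b && decide (polyBit p cc b = e))
      (n + 2) := by
    intro U X Y hX hY hX2 hY2
    obtain ⟨a, ha, a', ha', h⟩ := hcc e U X Y hX hY hX2 hY2
    refine ⟨a, ha, a', ha', ?_⟩
    simp only at h ⊢
    rw [h, Bool.and_false]
  have hfin := hcore n hn1 N G' _ hG'1 hG'3 hrig hrect he
  have hn0 : (0 : ℝ) ≤ n := Nat.cast_nonneg n
  constructor
  · refine le_trans (Real.rpow_le_rpow_of_exponent_le one_le_two ?_) hfin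
    have h1 : (Fintype.card (Var n) : ℝ) ≤ ((n : ℝ) + 3) ^ (3 : ℝ) := by
      have := card_var n
      rw [Real.rpow_ofNat]
      exact_mod_cast this
    have h2 : (Fintype.card (Var n) : ℝ) ^ ((1 : ℝ) / 3) ≤ (n : ℝ) + 3 := by
      calc (Fintype.card (Var n) : ℝ) ^ ((1 : ℝ) / 3)
          ≤ (((n : ℝ) + 3) ^ (3 : ℝ)) ^ ((1 : ℝ) / 3) :=
            Real.rpow_le_rpow (Nat.cast_nonneg _) h1 (by norm_num)
        _ = (n : ℝ) + 3 := by
            rw [← Real.rpow_mul (by positivity)]
            norm_num
    have h3 : (3 : ℝ) ≤ n := by exact_mod_cast (show 3 ≤ n by omega)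
    nlinarith
  · refine le_trans (Real.rpow_le_rpow_of_exponent_le one_le_two ?_) hfin
    nlinarith

end Pool.Agent.Lib_helper45.SRO
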