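import Pool.Agent.Lib_helper45.SRO.U3

/-!
Module U2: small syntactic read-once programs for the complement of the hard function.
-/

namespace Pool.Agent.Lib_helper45.SRO

open Finset Pool.Agent.Lib_helper20.SRO

variable {n : ℕ}

/-- the variables -/
abbrev vb (i : Fin n) : Var2 n := Sum.inr i
abbrev vc (t : Fin (tt n)) (l : Fin (kk n)) (s : Bool) (i : Fin n) : Var2 n :=
  Sum.inl (Sum.inl (t, l, s, i))
abbrev ve (t : Fin (tt n)) : Var2 n := Sum.inl (Sum.inr t)

/-- the variables of the block `i`, for the products in `K` -/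
def blk (t : Fin (tt n)) (i : Fin n) (K : List (Fin (kk n))) : List (Var2 n) :=
  K.flatMap (fun l => [vc t l false i, vc t l true i])

/-- the variables for the points in `I` -/
def blks (t : Fin (tt n)) (I : List (Fin n)) : List (Var2 n) :=
  I.flatMap (fun i => vb i :: blk t i (List.finRange (kk n)))

/-- the order of the automaton `t` -/
def ordL (t : Fin (tt n)) : List (Var2 n) := blks t (List.finRange n) ++ [ve t]

theorem length_blk (t : Fin (tt n)) (i : Fin n) (K : List (Fin (kk n))) :
    (blk t i K).length = 2 * K.length := by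
  induction K with
  | nil => rfl
  | cons l K ih =>
    unfold blk at ih ⊢
    rw [List.flatMap_cons, List.length_append, ih, List.length_cons]
    simp only [List.length_cons, List.length_nil]
    ring

theorem length_blks (t : Fin (tt n)) (I : List (Fin n)) :
    (blks t I).length = I.length * (2 * kk n + 1) := by
  induction I with
  | nil => simp [blks]
  | cons i I ih =>
    unfold blks at ih ⊢
    rw [List.flatMap_cons, List.length_append, ih, List.length_cons, length_blk,
      List.length_finRange, List.length_cons]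
    ring

theorem length_ordL (t : Fin (tt n)) : (ordL t).length = n * (2 * kk n + 1) + 1 := by
  rw [ordL, List.length_append, length_blks, List.length_finRange]
  rfl

theorem mem_blk {t : Fin (tt n)} {i : Fin n} {K : List (Fin (kk n))} {x : Var2 n} :
    x ∈ blk t i K ↔ ∃ l ∈ K, ∃ s, x = vc t l s i := by
  unfold blk
  rw [List.mem_flatMap]
  refine exists_congr (fun l => and_congr_right (fun _ => ?_))
  simp only [List.mem_cons, List.not_mem_nil, or_false]
  constructor
  · rintro (h | h)
    · exact ⟨_, h⟩
    · exact ⟨_, h⟩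
  · rintro ⟨s, h⟩
    cases s
    · exact Or.inl h
    · exact Or.inr h

theorem nodup_blk (t : Fin (tt n)) (i : Fin n) {K : List (Fin (kk n))} (hK : K.Nodup) :
    (blk t i K).Nodup := by
  induction K with
  | nil => simp [blk]
  | cons l K ih =>
    rw [List.nodup_cons] at hK
    have e : blk t i (l :: K) = vc t l false i :: vc t l true i :: blk t i K := rfl
    have h : ∀ s, vc t l s i ∉ blk t i K := by
      intro s hs
      obtain ⟨l', hl', s', h'⟩ := mem_blk.1 hs
      simp only [Sum.inl.injEq, Prod.mk.injEq] at h'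
      rw [← h'.2.1] at hl'
      exact hK.1 hl'
    rw [e, List.nodup_cons, List.nodup_cons, List.mem_cons, not_or]
    exact ⟨⟨by simp, h false⟩, h true, ih hK.2⟩

theorem mem_blks {t : Fin (tt n)} {I : List (Fin n)} {x : Var2 n} :
    x ∈ blks t I ↔ ∃ i ∈ I, x = vb i ∨ ∃ l s, x = vc t l s i := by
  unfold blks
  rw [List.mem_flatMap]
  refine exists_congr (fun i => and_congr_right (fun _ => ?_))
  rw [List.mem_cons, mem_blk]
  simp [List.mem_finRange]

theorem nodup_blks (t : Fin (tt n)) {I : List (Fin n)} (hI : I.Nodup) : (blks t I).Nodup := by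
  induction I with
  | nil => simp [blks]
  | cons i I ih =>
    rw [List.nodup_cons] at hI
    have e : blks t (i :: I) = (vb i :: blk t i (List.finRange (kk n))) ++ blks t I := rfl
    rw [e, List.nodup_append]
    refine ⟨?_, ih hI.2, ?_⟩
    · rw [List.nodup_cons]
      refine ⟨?_, nodup_blk t i (List.nodup_finRange _)⟩
      intro h
      obtain ⟨l, _, s, h'⟩ := mem_blk.1 h
      simp at h'
    · intro x hx y hy hxy
      subst hxy
      obtain ⟨i', hi', h'⟩ := mem_blks.1 hy
      rw [List.mem_cons, mem_blk] at hx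
      rcases hx with hx | ⟨l, _, s, hx⟩
      · rcases h' with h' | ⟨l', s', h'⟩
        · rw [hx] at h'
          simp only [Sum.inr.injEq] at h'
          rw [h'] at hI
          exact hI.1 hi'
        · rw [hx] at h'
          simp at h'
      · rcases h' with h' | ⟨l', s', h'⟩
        · rw [hx] at h'
          simp at h'
        · rw [hx] at h'
          simp only [Sum.inl.injEq, Prod.mk.injEq] at h'
          rw [h'.2.2.2] at hI
          exact hI.1 hi'

theorem nodup_ordL (t : Fin (tt n)) : (ordL t).Nodup := by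
  rw [ordL, List.nodup_append]
  refine ⟨nodup_blks t (List.nodup_finRange n), by simp, ?_⟩
  intro x hx y hy hxy
  subst hxy
  rw [List.mem_singleton] at hy
  subst hy
  obtain ⟨i, _, h | ⟨l, s, h⟩⟩ := mem_blks.1 hx
  · simp at h
  · simp at h

/-- the states -/
abbrev St (n : ℕ) : Type := (Fin (kk n) → Bool → ZMod 2) × Bool × ZMod 2

/-- the step of the automaton -/
def stp (q : St n) (x : Var2 n) (c : Bool) : St n :=
  match x with
  | Sum.inr _ => (q.1, c, q.2.2 + if c then 1 else 0)
  | Sum.inl (Sum.inl (_, l, s, _)) =>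
      ((fun l' s' => if l' = l ∧ s' = s then q.1 l' s' + (if c && q.2.1 then 1 else 0)
        else q.1 l' s'), q.2.1, q.2.2)
  | Sum.inl (Sum.inr _) => (q.1, c, q.2.2)

theorem stp_vc (q : St n) (t : Fin (tt n)) (l : Fin (kk n)) (s : Bool) (i : Fin n) (c : Bool) :
    stp q (vc t l s i) c =
      ((fun l' s' => if l' = l ∧ s' = s then q.1 l' s' + (if c && q.2.1 then 1 else 0)
        else q.1 l' s'), q.2.1, q.2.2) := rfl

theorem fold_blk (v : Var2 n → Bool) (t : Fin (tt n)) (i : Fin n) (cur : Bool) (p : ZMod 2)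
    {K : List (Fin (kk n))} (hK : K.Nodup) : ∀ (R : Fin (kk n) → Bool → ZMod 2),
    (blk t i K).foldl (fun q x => stp q x (v x)) (R, cur, p) =
      ((fun l s => if l ∈ K then R l s + (if v (vc t l s i) && cur then 1 else 0) else R l s),
        cur, p) := by
  induction K with
  | nil => intro R; simp [blk]
  | cons l0 K ih =>
    intro R
    rw [List.nodup_cons] at hK
    have e : blk t i (l0 :: K) = vc t l0 false i :: vc t l0 true i :: blk t i K := rfl
    rw [e, List.foldl_cons, List.foldl_cons, stp_vc, stp_vc, ih hK.2]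
    congr 1
    funext l s
    by_cases hl : l = l0
    · subst hl
      rw [if_neg hK.1, if_pos List.mem_cons_self]
      cases s
      · simp
      · simp
    · have h1 : (l ∈ l0 :: K) ↔ l ∈ K := by
        rw [List.mem_cons]
        exact ⟨fun h => h.resolve_left hl, Or.inr⟩
      simp only [hl, false_and, if_false, h1]

theorem fold_blks (v : Var2 n → Bool) (t : Fin (tt n)) (I : List (Fin n)) :
    ∀ (R : Fin (kk n) → Bool → ZMod 2) (cur : Bool) (p : ZMod 2), ∃ cur',
    (blks t I).foldl (fun q x => stp q x (v x)) (R, cur, p) =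
      ((fun l s => R l s + (I.map (fun i =>
        if v (vc t l s i) && v (vb i) then (1 : ZMod 2) else 0)).sum), cur',
        p + (I.map (fun i => if v (vb i) then (1 : ZMod 2) else 0)).sum) := by
  induction I with
  | nil => intro R cur p; exact ⟨cur, by simp [blks]⟩
  | cons i I ih =>
    intro R cur p
    have e : blks t (i :: I) = (vb i :: blk t i (List.finRange (kk n))) ++ blks t I := rfl
    rw [e, List.foldl_append, List.foldl_cons]
    have e2 : stp (R, cur, p) (vb i) (v (vb i)) =
        (R, v (vb i), p + if v (vb i) then 1 else 0) := rfl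
    rw [e2, fold_blk v t i _ _ (List.nodup_finRange _)]
    obtain ⟨cur', h⟩ := ih (fun l s => if l ∈ List.finRange (kk n) then
      R l s + (if v (vc t l s i) && v (vb i) then 1 else 0) else R l s) (v (vb i))
      (p + if v (vb i) then 1 else 0)
    refine ⟨cur', ?_⟩
    rw [h]
    simp only [List.mem_finRange, if_true, List.map_cons, List.sum_cons, add_assoc]

theorem fold_ordL (v : Var2 n → Bool) (t : Fin (tt n)) :
    (ordL t).foldl (fun q x => stp q x (v x)) ((fun _ _ => 0), false, 0) =
      ((fun l s => dot (fun i => v (vc t l s i)) (fun i => v (vb i))), v (ve t),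
        par (fun i => v (vb i))) := by
  rw [ordL, List.foldl_append]
  obtain ⟨cur', h⟩ := fold_blks v t (List.finRange n) (fun _ _ => 0) false 0
  rw [h, List.foldl_cons, List.foldl_nil]
  simp only [stp, zero_add, dot, par, Fin.sum_univ_def]

theorem numU2 (n T k : ℕ) (hn : 16 ≤ n) (h1 : 4 ^ k ≤ n ^ 2) (h4 : 4 ≤ k) (h2 : n ≤ T * k)
    (h3 : 0 < T) : T * ((n * (2 * k + 1) + 1 + 1) * (4 ^ k * (2 * 2))) + 2 ≤
      5 * (T * (k * (2 * n)) + T + n) ^ 2 := by
  set A := T * (k * (2 * n)) with hA
  have hA1 : 2 * n ^ 2 ≤ A := by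
    calc 2 * n ^ 2 = n * (2 * n) := by ring
      _ ≤ (T * k) * (2 * n) := by gcongr
      _ = A := by rw [hA]; ring
  have hA2 : 8 * (T * n) ≤ A := by
    calc 8 * (T * n) = T * (4 * (2 * n)) := by ring
      _ ≤ T * (k * (2 * n)) := by gcongr
      _ = A := rfl
  have hB : T * (n * (2 * k + 1) + 1 + 1) ≤ 2 * (A + T + n) := by
    have e : T * (n * (2 * k + 1) + 1 + 1) = A + T * n + 2 * T := by rw [hA]; ring
    rw [e]
    omega
  have hC : 4 ^ k * (2 * 2) ≤ 2 * (A + T + n) := by
    calc 4 ^ k * (2 * 2) ≤ n ^ 2 * (2 * 2) := by gcongr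
      _ = 2 * (2 * n ^ 2) := by ring
      _ ≤ 2 * (A + T + n) := by
          have : 2 * n ^ 2 ≤ A + T + n := by omega
          gcongr
  have hD : 2 ≤ (A + T + n) ^ 2 := by
    have : 2 ≤ A + T + n := by omega
    nlinarith
  calc T * ((n * (2 * k + 1) + 1 + 1) * (4 ^ k * (2 * 2))) + 2
      = (T * (n * (2 * k + 1) + 1 + 1)) * (4 ^ k * (2 * 2)) + 2 := by ring
    _ ≤ (2 * (A + T + n)) * (2 * (A + T + n)) + 2 := by gcongr
    _ ≤ 5 * (A + T + n) ^ 2 := by nlinarith

theorem stmtU2 : StmtU2 := by
  intro n hn
  obtain ⟨G, hG1, hG2⟩ := uList (V := Var2 n) (Q := St n) (T := tt n)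
    (M := n * (2 * kk n + 1) + 1) ordL length_ordL nodup_ordL ((fun _ _ => 0), false, 0)
    (fun _ => stp)
    (fun _ q => q.2.2 = 1 ∨ ∑ l, q.1 l false * q.1 l true ≠ if q.2.1 then 1 else 0)
  refine ⟨_, inferInstance, G, hG1, ?_, ?_⟩
  · intro v
    rw [hG2 v]
    have e : (!hardF2 n v) = (!QF (fun t l s i => v (vc t l s i)) (fun t => v (ve t))
        (fun i => v (vb i))) := rfl
    beta_reduce
    rw [e, ← final_iff (tt_pos n)]
    refine exists_congr (fun t => ?_)
    rw [fold_ordL v t]
    rfl
  · rw [Fintype.card_sum, Fintype.card_prod, Fintype.card_prod, Fintype.card_prod,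
      Fintype.card_prod, card_regs, ZMod.card, Fintype.card_fin, Fintype.card_fin,
      Fintype.card_bool]
    have hV : Fintype.card (Var2 n) = tt n * (kk n * (2 * n)) + tt n + n := by
      rw [Fintype.card_sum, Fintype.card_sum, Fintype.card_prod, Fintype.card_prod,
        Fintype.card_prod, Fintype.card_fin, Fintype.card_fin, Fintype.card_fin,
        Fintype.card_bool]
    rw [hV]
    exact numU2 n (tt n) (kk n) hn (pow_kk n hn) (four_le_kk n hn) (le_tt_mul n hn) (tt_pos n)

end Pool.Agent.Lib_helper45.SRO
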