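import Pool.Agent.Lib_helper20.SRO.Stmts3
import Pool.Agent.Lib_helper45.SRO.U3

/-!
Modules V1 and V2: the majority of the quadratic equations is in the PP mode, and the NP and coNP
modes are contained in the PP mode.
-/

namespace Pool.Agent.Lib_helper45.SRO.V

open Finset Pool.Agent.Lib_helper20.SRO

section V1

variable {n : ℕ}

/-- the variables -/
abbrev wb (i : Fin n) : Var3 n := Sum.inr i
abbrev wc (t : Fin (2 * tt n + 1)) (l : Fin (kk n)) (s : Bool) (i : Fin n) : Var3 n :=
  Sum.inl (Sum.inl (t, l, s, i))
abbrev we (t : Fin (2 * tt n + 1)) : Var3 n := Sum.inl (Sum.inr t)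

/-- the variables of the block `i`, for the products in `K` -/
def blk (t : Fin (2 * tt n + 1)) (i : Fin n) (K : List (Fin (kk n))) : List (Var3 n) :=
  K.flatMap (fun l => [wc t l false i, wc t l true i])

/-- the variables for the points in `I` -/
def blks (t : Fin (2 * tt n + 1)) (I : List (Fin n)) : List (Var3 n) :=
  I.flatMap (fun i => wb i :: blk t i (List.finRange (kk n)))

/-- the order of the automaton `t` -/
def ordL (t : Fin (2 * tt n + 1)) : List (Var3 n) := blks t (List.finRange n) ++ [we t]

theorem mem_blk {t : Fin (2 * tt n + 1)} {i : Fin n} {K : List (Fin (kk n))} {x : Var3 n} :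
    x ∈ blk t i K ↔ ∃ l ∈ K, ∃ s, x = wc t l s i := by
  unfold blk
  rw [List.mem_flatMap]
  refine exists_congr (fun l => and_congr_right (fun _ => ?_))
  simp only [List.mem_cons, List.not_mem_nil, or_false]
  constructor
  · rintro (h | h)
    · exact ⟨_, h⟩
    · exact ⟨_, h⟩
  · rintro ⟨s, h⟩
    cases s
    · exact Or.inl h
    · exact Or.inr h

theorem nodup_blk (t : Fin (2 * tt n + 1)) (i : Fin n) {K : List (Fin (kk n))} (hK : K.Nodup) :
    (blk t i K).Nodup := by
  induction K with
  | nil => simp [blk]
  | cons l K ih =>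
    rw [List.nodup_cons] at hK
    have e : blk t i (l :: K) = wc t l false i :: wc t l true i :: blk t i K := rfl
    have h : ∀ s, wc t l s i ∉ blk t i K := by
      intro s hs
      obtain ⟨l', hl', s', h'⟩ := mem_blk.1 hs
      simp only [Sum.inl.injEq, Prod.mk.injEq] at h'
      rw [← h'.2.1] at hl'
      exact hK.1 hl'
    rw [e, List.nodup_cons, List.nodup_cons, List.mem_cons, not_or]
    exact ⟨⟨by simp, h false⟩, h true, ih hK.2⟩

theorem mem_blks {t : Fin (2 * tt n + 1)} {I : List (Fin n)} {x : Var3 n} :
    x ∈ blks t I ↔ ∃ i ∈ I, x = wb i ∨ ∃ l s, x = wc t l s i := by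
  unfold blks
  rw [List.mem_flatMap]
  refine exists_congr (fun i => and_congr_right (fun _ => ?_))
  rw [List.mem_cons, mem_blk]
  simp [List.mem_finRange]

theorem nodup_blks (t : Fin (2 * tt n + 1)) {I : List (Fin n)} (hI : I.Nodup) :
    (blks t I).Nodup := by
  induction I with
  | nil => simp [blks]
  | cons i I ih =>
    rw [List.nodup_cons] at hI
    have e : blks t (i :: I) = (wb i :: blk t i (List.finRange (kk n))) ++ blks t I := rfl
    rw [e, List.nodup_append]
    refine ⟨?_, ih hI.2, ?_⟩
    · rw [List.nodup_cons]
      refine ⟨?_, nodup_blk t i (List.nodup_finRange _)⟩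
      intro h
      obtain ⟨l, _, s, h'⟩ := mem_blk.1 h
      simp at h'
    · intro x hx y hy hxy
      subst hxy
      obtain ⟨i', hi', h'⟩ := mem_blks.1 hy
      rw [List.mem_cons, mem_blk] at hx
      rcases hx with hx | ⟨l, _, s, hx⟩
      · rcases h' with h' | ⟨l', s', h'⟩
        · rw [hx] at h'
          simp only [Sum.inr.injEq] at h'
          rw [h'] at hI
          exact hI.1 hi'
        · rw [hx] at h'
          simp at h'
      · rcases h' with h' | ⟨l', s', h'⟩
        · rw [hx] at h'
          simp at h'
        · rw [hx] at h'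
          simp only [Sum.inl.injEq, Prod.mk.injEq] at h'
          rw [h'.2.2.2] at hI
          exact hI.1 hi'

theorem nodup_ordL (t : Fin (2 * tt n + 1)) : (ordL t).Nodup := by
  rw [ordL, List.nodup_append]
  refine ⟨nodup_blks t (List.nodup_finRange n), by simp, ?_⟩
  intro x hx y hy hxy
  subst hxy
  rw [List.mem_singleton] at hy
  subst hy
  obtain ⟨i, _, h | ⟨l, s, h⟩⟩ := mem_blks.1 hx
  · simp at h
  · simp at h

/-- the states -/
abbrev St (n : ℕ) : Type := (Fin (kk n) → Bool → ZMod 2) × Bool

/-- the step of the automaton -/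
def stp (q : St n) (x : Var3 n) (c : Bool) : St n :=
  match x with
  | Sum.inr _ => (q.1, c)
  | Sum.inl (Sum.inl (_, l, s, _)) =>
      ((fun l' s' => if l' = l ∧ s' = s then q.1 l' s' + (if c && q.2 then 1 else 0)
        else q.1 l' s'), q.2)
  | Sum.inl (Sum.inr _) => (q.1, c)

theorem stp_wc (q : St n) (t : Fin (2 * tt n + 1)) (l : Fin (kk n)) (s : Bool) (i : Fin n)
    (c : Bool) :
    stp q (wc t l s i) c =
      ((fun l' s' => if l' = l ∧ s' = s then q.1 l' s' + (if c && q.2 then 1 else 0)
        else q.1 l' s'), q.2) := rfl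

theorem fold_blk (v : Var3 n → Bool) (t : Fin (2 * tt n + 1)) (i : Fin n) (cur : Bool)
    {K : List (Fin (kk n))} (hK : K.Nodup) : ∀ (R : Fin (kk n) → Bool → ZMod 2),
    (blk t i K).foldl (fun q x => stp q x (v x)) (R, cur) =
      ((fun l s => if l ∈ K then R l s + (if v (wc t l s i) && cur then 1 else 0) else R l s),
        cur) := by
  induction K with
  | nil => intro R; simp [blk]
  | cons l0 K ih =>
    intro R
    rw [List.nodup_cons] at hK
    have e : blk t i (l0 :: K) = wc t l0 false i :: wc t l0 true i :: blk t i K := rfl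
    rw [e, List.foldl_cons, List.foldl_cons, stp_wc, stp_wc, ih hK.2]
    congr 1
    funext l s
    by_cases hl : l = l0
    · subst hl
      rw [if_neg hK.1, if_pos List.mem_cons_self]
      cases s
      · simp
      · simp
    · have h1 : (l ∈ l0 :: K) ↔ l ∈ K := by
        rw [List.mem_cons]
        exact ⟨fun h => h.resolve_left hl, Or.inr⟩
      simp only [hl, false_and, if_false, h1]

theorem fold_blks (v : Var3 n → Bool) (t : Fin (2 * tt n + 1)) (I : List (Fin n)) :
    ∀ (R : Fin (kk n) → Bool → ZMod 2) (cur : Bool), ∃ cur',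
    (blks t I).foldl (fun q x => stp q x (v x)) (R, cur) =
      ((fun l s => R l s + (I.map (fun i =>
        if v (wc t l s i) && v (wb i) then (1 : ZMod 2) else 0)).sum), cur') := by
  induction I with
  | nil => intro R cur; exact ⟨cur, by simp [blks]⟩
  | cons i I ih =>
    intro R cur
    have e : blks t (i :: I) = (wb i :: blk t i (List.finRange (kk n))) ++ blks t I := rfl
    rw [e, List.foldl_append, List.foldl_cons]
    have e2 : stp (R, cur) (wb i) (v (wb i)) = (R, v (wb i)) := rfl
    rw [e2, fold_blk v t i _ (List.nodup_finRange _)]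
    obtain ⟨cur', h⟩ := ih (fun l s => if l ∈ List.finRange (kk n) then
      R l s + (if v (wc t l s i) && v (wb i) then 1 else 0) else R l s) (v (wb i))
    refine ⟨cur', ?_⟩
    rw [h]
    simp only [List.mem_finRange, if_true, List.map_cons, List.sum_cons, add_assoc]

theorem fold_ordL (v : Var3 n → Bool) (t : Fin (2 * tt n + 1)) :
    (ordL t).foldl (fun q x => stp q x (v x)) ((fun _ _ => 0), false) =
      ((fun l s => dot (fun i => v (wc t l s i)) (fun i => v (wb i))), v (we t)) := by
  rw [ordL, List.foldl_append]
  obtain ⟨cur', h⟩ := fold_blks v t (List.finRange n) (fun _ _ => 0) false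
  rw [h, List.foldl_cons, List.foldl_nil]
  simp only [stp, zero_add, dot, Fin.sum_univ_def]

/-- the program of the form `t` -/
def prog (t : Fin (2 * tt n + 1)) : Obl (Var3 n) (St n) where
  order := ordL t
  nodup := nodup_ordL t
  init := ((fun _ _ => 0), false)
  step := stp
  acc := fun q => decide (∑ l, q.1 l false * q.1 l true = if q.2 then 1 else 0)

theorem prog_out (t : Fin (2 * tt n + 1)) (v : Var3 n → Bool) :
    (prog t).out v = decide (quad (fun l s i => v (Sum.inl (Sum.inl (t, l, s, i))))
      (fun i => v (Sum.inr i)) = if v (Sum.inl (Sum.inr t)) then 1 else 0) := by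
  have h : (prog t).out v = decide (∑ l, ((ordL t).foldl (fun q x => stp q x (v x))
      ((fun _ _ => 0), false)).1 l false * ((ordL t).foldl (fun q x => stp q x (v x))
      ((fun _ _ => 0), false)).1 l true = if ((ordL t).foldl (fun q x => stp q x (v x))
      ((fun _ _ => 0), false)).2 then 1 else 0) := rfl
  rw [h, fold_ordL]
  rfl

theorem stmtV1 : StmtV1 := by
  intro n hn
  refine ⟨St n, inferInstance, prog, ?_, ?_⟩
  · rw [Fintype.card_prod, card_regs, Fintype.card_bool, mul_comm]
    exact Nat.mul_le_mul_left 2 (pow_kk n hn)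
  · intro v
    unfold majQ PPMode
    rw [decide_eq_true_iff]
    have h : (univ.filter (fun t : Fin (2 * tt n + 1) => (prog t).out v = true)) =
        (univ.filter (fun t : Fin (2 * tt n + 1) =>
          quad (fun l s i => v (Sum.inl (Sum.inl (t, l, s, i)))) (fun i => v (Sum.inr i)) =
            if v (Sum.inl (Sum.inr t)) then 1 else 0)) := by
      refine Finset.filter_congr (fun t _ => ?_)
      rw [prog_out, decide_eq_true_iff]
    rw [h]

end V1

section V2

variable {V Q : Type}

/-- the same program with one more state -/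
def lift (A : Obl V Q) : Obl V (Option Q) where
  order := A.order
  nodup := A.nodup
  init := some A.init
  step := fun q x c => q.map (fun q => A.step q x c)
  acc := fun q => (q.map A.acc).getD false

theorem lift_fold (A : Obl V Q) (v : V → Bool) (L : List V) : ∀ q : Q,
    L.foldl (fun q x => (lift A).step q x (v x)) (some q) =
      some (L.foldl (fun q x => A.step q x (v x)) q) := by
  induction L with
  | nil => intro q; rfl
  | cons a L ih => intro q; rw [List.foldl_cons, List.foldl_cons]; exact ih _

theorem lift_out (A : Obl V Q) (v : V → Bool) : (lift A).out v = A.out v := by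
  have h : (lift A).out v = (lift A).acc (A.order.foldl (fun q x => (lift A).step q x (v x))
    (some A.init)) := rfl
  rw [h, lift_fold]
  rfl

/-- a constant program -/
def const (c : Bool) : Obl V (Option Q) where
  order := []
  nodup := List.nodup_nil
  init := none
  step := fun q _ _ => q
  acc := fun _ => c

theorem const_out (c : Bool) (v : V → Bool) : (const c : Obl V (Option Q)).out v = c := rfl

/-- the index equivalence -/
def eqv (Y : ℕ) : Fin (2 * Y + 1) ≃ Fin Y ⊕ Fin (Y + 1) :=
  (finCongr (by ring)).trans finSumFinEquiv.symm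

/-- padding by constant programs -/
def pad {Y : ℕ} (A : Fin Y → Obl V Q) (c : Fin (Y + 1) → Bool) (i : Fin (2 * Y + 1)) :
    Obl V (Option Q) :=
  Sum.elim (fun y => lift (A y)) (fun z => const (c z)) (eqv Y i)

theorem pad_count {Y : ℕ} (A : Fin Y → Obl V Q) (c : Fin (Y + 1) → Bool) (v : V → Bool) :
    (univ.filter (fun i => (pad A c i).out v = true)).card =
      (univ.filter (fun y => (A y).out v = true)).card +
        (univ.filter (fun z => c z = true)).card := by
  rw [Finset.card_filter, Finset.card_filter, Finset.card_filter]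
  have h := Equiv.sum_comp (eqv Y) (fun s : Fin Y ⊕ Fin (Y + 1) =>
    if (Sum.elim (fun y => lift (A y)) (fun z => const (c z)) s : Obl V (Option Q)).out v = true
      then 1 else 0)
  unfold pad
  rw [h, Fintype.sum_sum_type]
  simp only [Sum.elim_inl, Sum.elim_inr, lift_out, const_out]
  rfl

theorem stmtV2 : StmtV2 := by
  intro V Q Y A
  constructor
  · refine ⟨pad A (fun z => decide (z.val < Y)), fun v => ?_⟩
    have hc : (univ.filter (fun z : Fin (Y + 1) => decide (z.val < Y) = true)).card = Y := by
      rw [Finset.card_filter, Fin.sum_univ_castSucc]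
      simp
    unfold PPMode NPMode
    rw [pad_count, hc]
    constructor
    · rintro ⟨y, hy⟩
      have : 0 < (univ.filter (fun y => (A y).out v = true)).card :=
        Finset.card_pos.2 ⟨y, by simp [hy]⟩
      omega
    · intro h
      have : 0 < (univ.filter (fun y => (A y).out v = true)).card := by omega
      obtain ⟨y, hy⟩ := Finset.card_pos.1 this
      exact ⟨y, (Finset.mem_filter.1 hy).2⟩
  · refine ⟨pad A (fun z => decide (z.val = 0)), fun v => ?_⟩
    have hc : (univ.filter (fun z : Fin (Y + 1) => decide (z.val = 0) = true)).card = 1 := by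
      rw [Finset.card_filter, Fin.sum_univ_succ]
      simp
    unfold PPMode CoNPMode
    rw [pad_count, hc]
    have hle : (univ.filter (fun y => (A y).out v = true)).card ≤ Y := by
      calc _ ≤ (univ : Finset (Fin Y)).card := Finset.card_filter_le _ _
        _ = Y := by simp
    constructor
    · intro h
      have : (univ.filter (fun y => (A y).out v = true)) = (univ : Finset (Fin Y)) :=
        Finset.filter_true_of_mem (fun y _ => h y)
      rw [this, Finset.card_univ, Fintype.card_fin]
      omega
    · intro h y
      have h1 : (univ.filter (fun y => (A y).out v = true)).card = (univ : Finset (Fin Y)).card := by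
        rw [Finset.card_univ, Fintype.card_fin]
        omega
      have h2 := Finset.eq_of_subset_of_card_le (Finset.filter_subset _ _) (le_of_eq h1.symm)
      have h3 : y ∈ univ.filter (fun y => (A y).out v = true) := by rw [h2]; exact mem_univ y
      exact (Finset.mem_filter.1 h3).2

end V2

end Pool.Agent.Lib_helper45.SRO.V

namespace Pool.Agent.Lib_helper45.SRO

theorem stmtV1 : Pool.Agent.Lib_helper20.SRO.StmtV1 := V.stmtV1

theorem stmtV2 : Pool.Agent.Lib_helper20.SRO.StmtV2 := V.stmtV2

end Pool.Agent.Lib_helper45.SRO
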