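import Pool.Agent.Lib_helper20.SRO.Defs4
import Pool.Agent.Lib_helper45.SRO.E

/-!
Module U: a union of oblivious read-once automata is a syntactic read-once program.
-/

namespace Pool.Agent.Lib_helper45.SRO

open Finset Pool.Agent.Lib_helper20.SRO

variable {V Q : Type} {T M : ℕ} (ord : Fin T → Fin M → V) (init : Fin T → Q)
    (step : Fin T → Fin M → Q → Bool → Q) (acc : Fin T → Q → Prop)

/-- the union of the automata -/
def uni : NBP V ((Fin T × Fin (M + 1) × Q) ⊕ Bool) where
  source := Sum.inr false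
  sink := Sum.inr true
  edge := fun u v o =>
    (∃ t, u = Sum.inr false ∧ v = Sum.inl (t, 0, init t) ∧ o = none) ∨
    (∃ t, ∃ j : Fin M, ∃ q c, u = Sum.inl (t, j.castSucc, q) ∧
      v = Sum.inl (t, j.succ, step t j q c) ∧ o = some (ord t j, c)) ∨
    (∃ t q, acc t q ∧ u = Sum.inl (t, Fin.last M, q) ∧ v = Sum.inr true ∧ o = none)

variable {ord init step acc}

theorem uni_nodup (hinj : ∀ t, Function.Injective (ord t)) {u v : (Fin T × Fin (M + 1) × Q) ⊕ Bool}
    {l : List (V × Bool)} (h : Walk (uni ord init step acc) u v l) :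
    (∀ t j q, u = Sum.inl (t, j, q) → (l.map Prod.fst).Nodup ∧
      ∀ x ∈ l.map Prod.fst, ∃ i : Fin M, j.val ≤ i.val ∧ x = ord t i) ∧
    (u = Sum.inr true → l = []) ∧ (l.map Prod.fst).Nodup := by
  induction h with
  | nil u => simp
  | free he _ ih =>
    rcases he with ⟨t, h1, h2, _⟩ | ⟨t, j, q, c, _, _, h3⟩ | ⟨t, q, _, h1, h2, _⟩
    · subst h1 h2
      refine ⟨fun t j q h => by simp at h, fun h => by simp at h, ih.2.2⟩
    · simp at h3
    · subst h1 h2
      have hl := ih.2.1 rfl
      subst hl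
      simp
  | @test u' v' w' l' x c he _ ih =>
    rcases he with ⟨t, _, _, h3⟩ | ⟨t, j, q, c', h1, h2, h3⟩ | ⟨t, q, _, _, _, h3⟩
    · simp at h3
    · subst h1 h2
      simp only [Option.some.injEq, Prod.mk.injEq] at h3
      obtain ⟨h4, h5⟩ := h3
      subst h4 h5
      obtain ⟨i1, i2⟩ := ih.1 t j.succ _ rfl
      have hnd : (((ord t j, c) :: l' : List (V × Bool)).map Prod.fst).Nodup := by
        rw [List.map_cons, List.nodup_cons]
        refine ⟨?_, i1⟩
        intro hx
        obtain ⟨i, hi, hxi⟩ := i2 _ hx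
        have := hinj t hxi
        rw [← this, Fin.val_succ] at hi
        omega
      refine ⟨?_, fun h => by simp at h, hnd⟩
      intro t' j' q' h
      simp only [Sum.inl.injEq, Prod.mk.injEq] at h
      obtain ⟨h6, h7, _⟩ := h
      subst h6 h7
      refine ⟨hnd, ?_⟩
      intro x hx
      rw [List.map_cons, List.mem_cons] at hx
      rcases hx with hx | hx
      · exact ⟨j, by simp, hx⟩
      · obtain ⟨i, hi, hxi⟩ := i2 x hx
        refine ⟨i, ?_, hxi⟩
        rw [Fin.val_succ] at hi
        rw [Fin.val_castSucc]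
        omega
    · simp at h3

theorem uni_acc {b : V → Bool} {u v : (Fin T × Fin (M + 1) × Q) ⊕ Bool}
    {l : List (V × Bool)} (h : Walk (uni ord init step acc) u v l) :
    Agrees b l → v = Sum.inr true → ∀ t (j : Fin (M + 1)) q, u = Sum.inl (t, j, q) →
    q = run (ord t) (init t) (step t) b j.val (Nat.lt_succ_iff.1 j.2) →
    acc t (run (ord t) (init t) (step t) b M le_rfl) := by
  induction h with
  | nil u =>
    intro _ h2 t j q h3
    rw [h2] at h3
    simp at h3
  | free he _ ih =>
    intro hb hv t j q hu hq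
    rcases he with ⟨t', h1, h2, _⟩ | ⟨t', j', q', c, _, _, h3⟩ | ⟨t', q', h0, h1, h2, _⟩
    · rw [h1] at hu; simp at hu
    · simp at h3
    · rw [h1] at hu
      simp only [Sum.inl.injEq, Prod.mk.injEq] at hu
      obtain ⟨h6, h7, h8⟩ := hu
      subst h6 h7 h8
      rw [hq] at h0
      exact h0
  | test x c he _ ih =>
    intro hb hv t j q hu hq
    rcases he with ⟨t', _, _, h3⟩ | ⟨t', j', q', c', h1, h2, h3⟩ | ⟨t', q', _, _, _, h3⟩
    · simp at h3
    · rw [h1] at hu
      simp only [Sum.inl.injEq, Prod.mk.injEq] at hu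
      obtain ⟨h6, h7, h8⟩ := hu
      subst h6 h7 h8
      simp only [Option.some.injEq, Prod.mk.injEq] at h3
      obtain ⟨h4, h5⟩ := h3
      subst h4 h5
      have hc : b (ord t' j') = c := hb (ord t' j', c) List.mem_cons_self
      refine ih (fun p hp => hb p (List.mem_cons_of_mem _ hp)) hv t' j'.succ _ h2 ?_
      have e1 : run (ord t') (init t') (step t') b (j'.succ).val (Nat.lt_succ_iff.1 j'.succ.2) =
          step t' j' (run (ord t') (init t') (step t') b j'.val
            (Nat.le_of_succ_le (Nat.lt_succ_iff.1 j'.succ.2))) (b (ord t' j')) := rfl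
      rw [e1, hc, hq]
      rfl
    · simp at h3

theorem uni_walk (b : V → Bool) (t : Fin T) : ∀ (j : ℕ) (hj : j ≤ M),
    ∃ l, Walk (uni ord init step acc) (Sum.inr false)
      (Sum.inl (t, ⟨j, Nat.lt_succ_of_le hj⟩, run (ord t) (init t) (step t) b j hj)) l ∧
      Agrees b l := by
  intro j
  induction j with
  | zero =>
    intro hj
    refine ⟨[], Walk.free (Or.inl ⟨t, rfl, rfl, rfl⟩) (Walk.nil _), ?_⟩
    intro p hp
    simp at hp
  | succ j ih =>
    intro hj
    obtain ⟨l, hl, hb⟩ := ih (Nat.le_of_succ_le hj)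
    refine ⟨l ++ [(ord t ⟨j, hj⟩, b (ord t ⟨j, hj⟩))], walk_append hl ?_, ?_⟩
    · refine Walk.test _ _ (Or.inr (Or.inl ⟨t, ⟨j, hj⟩, _, _, rfl, rfl, rfl⟩)) (Walk.nil _)
    · intro p hp
      rw [List.mem_append, List.mem_singleton] at hp
      rcases hp with hp | hp
      · exact hb p hp
      · rw [hp]

theorem stmtU : StmtU := by
  intro V Q T M ord init step acc hinj
  refine ⟨uni ord init step acc, ?_, ?_⟩
  · intro l hl
    exact (uni_nodup hinj hl).2.2
  · intro b
    constructor
    · rintro ⟨l, hl, hb⟩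
      cases hl with
      | free he hw =>
        rcases he with ⟨t, _, h2, _⟩ | ⟨t, j, q, c, _, _, h3⟩ | ⟨t, q, _, h1, _, _⟩
        · exact ⟨t, uni_acc hw hb rfl t 0 _ h2 rfl⟩
        · simp at h3
        · simp [uni] at h1
      | test x c he hw =>
        rcases he with ⟨t, _, _, h3⟩ | ⟨t, j, q, c', h1, _, _⟩ | ⟨t, q, _, _, _, h3⟩
        · simp at h3
        · simp [uni] at h1
        · simp at h3
    · rintro ⟨t, ht⟩
      obtain ⟨l, hl, hb⟩ := uni_walk (ord := ord) (init := init) (step := step) (acc := acc)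
        b t M le_rfl
      refine ⟨l ++ [], walk_append hl ?_, by simpa using hb⟩
      exact Walk.free (Or.inr (Or.inr ⟨t, _, ht, rfl, rfl, rfl⟩)) (Walk.nil _)

end Pool.Agent.Lib_helper45.SRO
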